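import Pool.Agent.P.MP_16b5eb_nt.F5.Gauss
import Pool.Agent.P.MP_16b5eb_nt.QA

/-! Logarithmic derivatives in the quadratic ring. -/

set_option autoImplicit false
set_option linter.unusedSectionVars false

namespace Pool.Agent.P.MP_16b5eb_nt.F5

open Polynomial Finset QuadraticAlgebra
open scoped Classical

variable {F : Type} [Field F] [Fintype F] [CharP F 5] {D : F[X]}

/-- the derivation y d/dx -/
noncomputable def dd (u : QuadraticAlgebra F[X] D 0) : QuadraticAlgebra F[X] D 0 :=
  ⟨derivative u.im * D + 3 * u.im * derivative D, derivative u.re⟩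

theorem dd_mul (u v : QuadraticAlgebra F[X] D 0) : dd (u * v) = dd u * v + u * dd v := by
  refine QuadraticAlgebra.ext ?_ ?_
  · simp only [dd, re_mul, im_mul, re_add, derivative_add, derivative_mul, zero_mul, add_zero]
    ring
  · simp only [dd, re_mul, im_mul, im_add, derivative_add, derivative_mul, zero_mul, add_zero]
    linear_combination (-derivative D * u.im * v.im) * five' (F := F)

theorem fiveQ : (5 : QuadraticAlgebra F[X] D 0) = 0 := by
  rw [← map_ofNat (algebraMap F[X] (QuadraticAlgebra F[X] D 0)), five', map_zero]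

theorem dd_five (v : QuadraticAlgebra F[X] D 0) : dd (v ^ 5) = 0 := by
  rw [show v ^ 5 = v * v * v * v * v by ring]
  simp only [dd_mul]
  linear_combination (v ^ 4 * dd v) * fiveQ (D := D)

/-- `G` is the logarithmic derivative of `u` -/
def DL (u : QuadraticAlgebra F[X] D 0) (G : F[X]) : Prop := dd u = algebraMap F[X] _ G * u

theorem DL.mul {u v : QuadraticAlgebra F[X] D 0} {G H : F[X]} (h1 : DL u G) (h2 : DL v H) :
    DL (u * v) (G + H) := by
  rw [DL, dd_mul, h1, h2, map_add]; ring

theorem DL.pow {u : QuadraticAlgebra F[X] D 0} {G : F[X]} (h : DL u G) (n : ℕ) :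
    DL (u ^ n) (n * G) := by
  induction n with
  | zero => refine QuadraticAlgebra.ext ?_ ?_ <;> simp [dd]
  | succ n ih => rw [pow_succ, Nat.cast_succ, add_one_mul]; exact ih.mul h

theorem DL.re {u : QuadraticAlgebra F[X] D 0} {G : F[X]} (h : DL u G) :
    derivative u.im * D + 3 * u.im * derivative D = G * u.re := by
  simpa [dd] using congrArg QuadraticAlgebra.re h

theorem DL.im {u : QuadraticAlgebra F[X] D 0} {G : F[X]} (h : DL u G) :
    derivative u.re = G * u.im := by
  simpa [dd] using congrArg QuadraticAlgebra.im h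

theorem der5 (c : F[X]) : derivative^[5] c = 0 := by
  ext n
  obtain ⟨k, hk⟩ := Nat.factorial_dvd_descFactorial (n + 5) 5
  rw [coeff_iterate_derivative, hk, nsmul_eq_mul, coeff_zero]
  simp only [Nat.factorial, Nat.cast_mul]
  push_cast
  rw [five]; ring

theorem cartier {a c P T : F[X]} (hT : derivative T = 0) (h1 : derivative c = P * a)
    (h2 : T * derivative a = P * c) : (T ^ 2 * derivative^[4] P + P ^ 5) * a = 0 := by
  have d : ∀ x, derivative (T * x) = T * derivative x := fun x => by
    rw [derivative_mul, hT, zero_mul, zero_add]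
  have h5 := der5 c
  simp only [Function.iterate_succ_apply', Function.iterate_zero_apply] at h5 ⊢
  have e2 : T * derivative (derivative c) = T * (derivative P * a) + P * P * c := by
    rw [h1, derivative_mul]; linear_combination P * h2
  have e3 := congrArg derivative e2
  simp only [d, derivative_add] at e3
  simp only [derivative_mul] at e3
  replace e3 : T * derivative (derivative (derivative c)) =
      T * (derivative (derivative P) * a) + P * P * P * a +
        (P * derivative P * c + P * derivative P * c + P * derivative P * c) := by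
    linear_combination e3 + derivative P * h2 + P * P * h1
  have e4 := congrArg derivative e3
  simp only [d, derivative_add] at e4
  simp only [derivative_mul] at e4
  replace e4 : T * (T * derivative (derivative (derivative (derivative c)))) =
      T * (T * (derivative (derivative (derivative P)) * a)) + T * (P * P * derivative P * a) +
        P * P * P * P * c - T * (P * derivative (derivative P) * c) +
        T * (3 * (derivative P * derivative P * c)) := by
    linear_combination T * e4 + (T * derivative (derivative P) + P ^ 3) * h2 +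
      3 * T * P * derivative P * h1 +
      (T * P * P * derivative P * a + T * P * derivative (derivative P) * c) * five' (F := F)
  have e5 := congrArg derivative e4
  simp only [d, derivative_add, derivative_sub] at e5
  rw [h5] at e5
  simp only [derivative_mul, derivative_ofNat, h1] at e5
  linear_combination -e5 - (T * derivative (derivative (derivative P)) + P * P * derivative P) * h2 -
    (P ^ 3 * derivative P * c + T * derivative P * derivative (derivative P) * c +
      T * P * derivative P ^ 2 * a) * five' (F := F)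

theorem der_cube {a b G : F[X]} (h : derivative b * D + 3 * b * derivative D = G * a) :
    derivative (b * D ^ 3) = G * D ^ 2 * a := by
  rw [show b * D ^ 3 = b * D * D * D by ring]
  simp only [derivative_mul]
  linear_combination D ^ 2 * h

theorem DL.mem {g : ℕ} (hD : D ∈ Mo F (2 * g + 2)) {u : QuadraticAlgebra F[X] D 0} {G : F[X]}
    (h : DL u G) (hu : u ≠ 0) : G ∈ Om g D := by
  obtain ⟨m, d⟩ := mem_Mo.1 hD
  by_cases h0 : G = 0
  · exact mem_filter.2 ⟨h0 ▸ zero_mem_Lt _, by simp [h0]⟩
  have h1 := h.re
  have h2 := h.im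
  have ha : u.re ≠ 0 := fun z => by
    rw [z, derivative_zero, eq_comm, mul_eq_zero_iff_left h0] at h2
    exact hu (QuadraticAlgebra.ext z h2)
  have hb : u.im ≠ 0 := fun z => ha (by simpa [z, h0] using h1)
  refine mem_filter.2 ⟨mem_Lt_succ.2 ?_, ?_⟩
  · have a1 : (derivative u.re).natDegree < u.re.natDegree := natDegree_derivative_lt fun z => by
      rw [derivative_of_natDegree_zero z] at h2
      exact mul_ne_zero h0 hb h2.symm
    have a2 : (derivative u.im * D).natDegree ≤ u.im.natDegree + 2 * g + 1 := by
      by_cases z : u.im.natDegree = 0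
      · simp [derivative_of_natDegree_zero z]
      · have := natDegree_derivative_lt z
        have : (derivative u.im * D).natDegree ≤ _ := natDegree_mul_le
        omega
    have a3 : (3 * u.im * derivative D).natDegree ≤ u.im.natDegree + 2 * g + 1 := by
      have := natDegree_derivative_lt (p := D) (by omega)
      have : (3 * u.im * derivative D).natDegree ≤ _ := natDegree_mul_le
      have : (3 * u.im).natDegree ≤ _ := natDegree_mul_le
      have : (3 : F[X]).natDegree = 0 := natDegree_ofNat 3
      omega
    have a4 := (natDegree_add_le _ _).trans (max_le a2 a3)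
    rw [h1, natDegree_mul h0 ha] at a4
    rw [h2, natDegree_mul h0 hb] at a1
    omega
  · have h3 := cartier (a := u.re) (c := u.im * D ^ 3) (P := G * D ^ 2) (T := D ^ 5)
      (by simpa using d5 D 1) (der_cube h1) (by rw [h2]; ring)
    refine mul_left_cancel₀ (pow_ne_zero 10 m.ne_zero) ?_
    linear_combination (mul_eq_zero.1 h3).resolve_right ha

theorem root5 {p : F[X]} (h : derivative p = 0) : ∃ r, p = r ^ 5 := by
  have : Fact (Nat.Prime 5) := ⟨by norm_num⟩
  refine ⟨(contract 5 p).map (frobeniusEquiv F 5).symm, ?_⟩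
  rw [← map_frobenius_expand, map_expand, Polynomial.map_map, frobenius_comp_frobeniusEquiv_symm,
    Polynomial.map_id, expand_contract 5 h (by norm_num)]

theorem DL.root (hs : Squarefree D) {u : QuadraticAlgebra F[X] D 0} (h : DL u 0) :
    ∃ v, u = v ^ 5 ∧ u.im = D ^ 2 * v.im ^ 5 := by
  obtain ⟨a, ha⟩ := root5 (h.im.trans (zero_mul _))
  obtain ⟨c, hc⟩ := root5 ((der_cube h.re).trans (by ring))
  obtain ⟨b, rfl⟩ : D ∣ c := (hs.dvd_pow_iff_dvd (n := 5) (by norm_num)).1
    ⟨u.im * D ^ 2, by rw [← hc]; ring⟩
  have hb : u.im = D ^ 2 * b ^ 5 :=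
    mul_right_cancel₀ (pow_ne_zero 3 hs.ne_zero) (by rw [hc]; ring)
  refine ⟨⟨a, b⟩, QuadraticAlgebra.ext ?_ ?_, hb⟩
  · simp only [pow_succ, pow_zero, one_mul, re_mul, im_mul]
    linear_combination ha - (2 * a ^ 3 * b ^ 2 * D + a * b ^ 4 * D ^ 2) * five' (F := F)
  · simp only [pow_succ, pow_zero, one_mul, re_mul, im_mul]
    linear_combination hb - (a ^ 4 * b + 2 * a ^ 2 * b ^ 3 * D) * five' (F := F)

theorem dvd_of_pow {R : Type} [CommRing R] [IsDedekindDomain R] {u z : R} (hu : u ≠ 0)
    {I : Ideal R} (h : Ideal.span {u} = I ^ 5) (hz : ∀ v w, v ^ 5 = u * w → u ∣ w * z) :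
    u ∣ z := by
  have h0 : Ideal.span {u} ≠ 0 := fun z => hu (Ideal.span_singleton_eq_bot.1 z)
  have hI : I ≠ 0 := fun z => h0 (by rw [h, z]; simp)
  have hJ : (Ideal.span {u}).colon {z} = ⊤ := by
    by_contra hJ
    obtain ⟨m, hm, hle⟩ := Ideal.exists_le_maximal _ hJ
    obtain ⟨v, hv, hv'⟩ := SetLike.not_le_iff_exists.1 fun hh : I ≤ I * m =>
      hm.ne_top (mul_left_cancel₀ hI
        ((le_antisymm Ideal.mul_le_left hh).trans (Ideal.mul_top I).symm))
    obtain ⟨K, hK⟩ : I ∣ Ideal.span {v} :=
      Ideal.dvd_iff_le.2 ((Ideal.span_singleton_le_iff_mem _).2 hv)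
    obtain ⟨w, hw⟩ : u ∣ v ^ 5 := Ideal.mem_span_singleton.1 (h ▸ Ideal.pow_mem_pow hv 5)
    have h1 : Ideal.span {w} = K ^ 5 := mul_left_cancel₀ h0 (by
      rw [Ideal.span_singleton_mul_span_singleton, ← hw, ← Ideal.span_singleton_pow, hK, mul_pow, h])
    have h2 : w ∈ m :=
      hle (Submodule.mem_colon_singleton.2 (Ideal.mem_span_singleton.2 (hz v w hw)))
    have h3 : K ≤ m := hm.isPrime.le_of_pow_le
      (h1 ▸ (Ideal.span_singleton_le_iff_mem _).2 h2 : K ^ 5 ≤ m)
    exact hv' (Ideal.mul_mono_right h3 (hK ▸ Ideal.mem_span_singleton_self v))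
  have := Submodule.mem_colon_singleton.1 ((Ideal.eq_top_iff_one _).1 hJ)
  rwa [one_smul, Ideal.mem_span_singleton] at this

theorem exists_DL (hn : NoRoot D 0) [IsDedekindDomain (QuadraticAlgebra F[X] D 0)]
    {u : QuadraticAlgebra F[X] D 0} (hu : u ≠ 0) {I : Ideal (QuadraticAlgebra F[X] D 0)}
    (h : Ideal.span {u} = I ^ 5) : ∃ G, DL u G := by
  obtain ⟨t, ht⟩ : u ∣ dd u := dvd_of_pow hu h fun v w hw => ⟨-dd w, by
    have := dd_five v
    rw [hw, dd_mul] at this
    linear_combination this⟩
  have h1 := congrArg QuadraticAlgebra.re ht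
  have h2 := congrArg QuadraticAlgebra.im ht
  simp only [dd, re_mul, im_mul, zero_mul, add_zero] at h1 h2
  have hN := norm_ne_zero hn hu
  have h3 : derivative (QuadraticAlgebra.norm u) = 2 * t.im * QuadraticAlgebra.norm u := by
    simp only [norm_def, derivative_sub, derivative_mul, zero_mul, add_zero]
    linear_combination 2 * u.re * h2 - 2 * u.im * h1 + u.im ^ 2 * derivative D * five' (F := F)
  have h4 : t.im = 0 := by
    by_contra h4
    have h5 : 2 * t.im ≠ 0 := mul_ne_zero (fun z => two_ne (F := F) (by
      simpa using congrArg (coeff · 0) z)) h4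
    have h6 := degree_derivative_lt hN
    rw [h3] at h6
    exact h6.not_ge (mul_comm (2 * t.im) _ ▸ degree_le_mul_left _ h5)
  exact ⟨t.re, by rw [DL, ht, mul_comm]; congr 1; exact QuadraticAlgebra.ext rfl h4⟩

end Pool.Agent.P.MP_16b5eb_nt.F5
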