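import Mathlib

/-! Finite sets of polynomials and counting of multiples. -/

set_option autoImplicit false
set_option linter.unusedSectionVars false

namespace Pool.Agent.P.MP_16b5eb_nt.F5

open Polynomial Finset
open scoped Classical

variable (F : Type) [Field F] [Fintype F]

noncomputable instance (n : ℕ) : Fintype (degreeLT F n) :=
  Fintype.ofEquiv _ (degreeLTEquiv F n).symm.toEquiv

/-- polynomials of degree less than `n` -/
noncomputable def Lt (n : ℕ) : Finset F[X] :=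
  (univ : Finset (degreeLT F n)).map (Function.Embedding.subtype _)

/-- monic polynomials of degree `n` -/
noncomputable def Mo (n : ℕ) : Finset F[X] := (Lt F n).image fun p => X ^ n + p

/-- monic polynomials of degree at most `n` -/
noncomputable def Mle (n : ℕ) : Finset F[X] := (range (n + 1)).biUnion (Mo F)

/-- the square root of the number of elements -/
noncomputable def rr : ℝ := √(Fintype.card F : ℝ)

variable {F}

theorem mem_Lt {n : ℕ} {p : F[X]} : p ∈ Lt F n ↔ p.degree < n := by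
  simp [Lt, mem_degreeLT]

theorem zero_mem_Lt (n : ℕ) : (0 : F[X]) ∈ Lt F n := mem_Lt.2 (by simp)

theorem mem_Lt' {n : ℕ} {p : F[X]} (h : p ≠ 0) : p ∈ Lt F n ↔ p.natDegree < n := by
  rw [mem_Lt, natDegree_lt_iff_degree_lt h]

theorem mem_Lt_of {n : ℕ} {p : F[X]} (h : p ≠ 0 → p.natDegree < n) : p ∈ Lt F n := by
  by_cases h0 : p = 0
  · exact h0 ▸ zero_mem_Lt n
  · exact (mem_Lt' h0).2 (h h0)

theorem mem_Lt_succ {n : ℕ} {p : F[X]} : p ∈ Lt F (n + 1) ↔ p.natDegree ≤ n :=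
  ⟨fun h => by
    by_cases h0 : p = 0
    · simp [h0]
    · exact Nat.lt_succ_iff.1 ((mem_Lt' h0).1 h), fun h => mem_Lt_of fun _ => by omega⟩

theorem sub_mem_Lt {n : ℕ} {p q : F[X]} (hp : p ∈ Lt F n) (hq : q ∈ Lt F n) : p - q ∈ Lt F n :=
  mem_Lt.2 ((degree_sub_le _ _).trans_lt (max_lt (mem_Lt.1 hp) (mem_Lt.1 hq)))

theorem add_mem_Lt {n : ℕ} {p q : F[X]} (hp : p ∈ Lt F n) (hq : q ∈ Lt F n) : p + q ∈ Lt F n :=
  mem_Lt.2 ((degree_add_le _ _).trans_lt (max_lt (mem_Lt.1 hp) (mem_Lt.1 hq)))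

theorem card_deg (n : ℕ) : Fintype.card (degreeLT F n) = Fintype.card F ^ n := by
  rw [Fintype.ofEquiv_card]; simp

theorem card_Lt (n : ℕ) : #(Lt F n) = Fintype.card F ^ n := by
  rw [Lt, card_map, card_univ, card_deg]

theorem sum_Lt {M : Type} [AddCommMonoid M] (n : ℕ) (f : F[X] → M) :
    ∑ p ∈ Lt F n, f p = ∑ p : degreeLT F n, f p := by
  rw [Lt, sum_map]; rfl

theorem mem_Mo {n : ℕ} {p : F[X]} : p ∈ Mo F n ↔ p.Monic ∧ p.natDegree = n := by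
  rw [Mo, mem_image]
  constructor
  · rintro ⟨a, ha, rfl⟩
    have h := mem_Lt.1 ha
    exact ⟨monic_X_pow_add h, by
      rw [natDegree_add_eq_left_of_degree_lt (by rwa [degree_X_pow]), natDegree_X_pow]⟩
  · rintro ⟨h1, rfl⟩
    refine ⟨p - X ^ p.natDegree, mem_Lt.2 ?_, by ring⟩
    have := degree_sub_lt_left (p := p) (q := X ^ p.natDegree)
      (by rw [degree_X_pow, degree_eq_natDegree h1.ne_zero]) h1.ne_zero
      (by rw [h1.leadingCoeff, leadingCoeff_X_pow])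
    rwa [degree_eq_natDegree h1.ne_zero] at this

theorem sub_of_Mo {n : ℕ} {p q : F[X]} (hp : p ∈ Mo F n) (hq : q ∈ Mo F n) : p - q ∈ Lt F n := by
  obtain ⟨a, ha, rfl⟩ := mem_image.1 hp
  obtain ⟨b, hb, rfl⟩ := mem_image.1 hq
  rw [add_sub_add_left_eq_sub]
  exact sub_mem_Lt ha hb

theorem card_Mo (n : ℕ) : #(Mo F n) = Fintype.card F ^ n := by
  rw [Mo, card_image_of_injective _ (add_right_injective _), card_Lt]

theorem sum_Mo {M : Type} [AddCommMonoid M] (n : ℕ) (f : F[X] → M) :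
    ∑ p ∈ Mo F n, f p = ∑ p : degreeLT F n, f (X ^ n + (p : F[X])) := by
  rw [Mo, sum_image fun _ _ _ _ h => add_left_cancel h, sum_Lt]

theorem mem_Mle {n : ℕ} {p : F[X]} : p ∈ Mle F n ↔ p.Monic ∧ p.natDegree ≤ n := by
  simp only [Mle, mem_biUnion, mem_range, mem_Mo]
  exact ⟨fun ⟨i, h1, h2, h3⟩ => ⟨h2, by omega⟩, fun ⟨h1, h2⟩ => ⟨_, by omega, h1, rfl⟩⟩

theorem eq_zero_of_dvd {e p : F[X]} (h : e ∣ p) (hp : p ∈ Lt F e.natDegree) : p = 0 := by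
  by_contra h0
  exact absurd (natDegree_le_of_dvd h h0) (not_le.2 ((mem_Lt' h0).1 hp))

theorem rr_sq : rr F ^ 2 = Fintype.card F := Real.sq_sqrt (Nat.cast_nonneg _)

theorem rr_pos : 0 < rr F := Real.sqrt_pos.2 (by exact_mod_cast Fintype.card_pos)

theorem q_pow (n : ℕ) : (Fintype.card F : ℝ) ^ n = rr F ^ (2 * n) := by rw [pow_mul, rr_sq]

/-- a set of polynomials that are congruent modulo `e`, with differences of degree below `n` -/
theorem mult {e : F[X]} (he : e ≠ 0) {n : ℕ} (hn : e.natDegree ≤ n) (S : Finset F[X])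
    (h1 : ∀ a ∈ S, ∀ b ∈ S, a - b ∈ Lt F n) (h2 : ∀ a ∈ S, ∀ b ∈ S, e ∣ a - b) :
    (#S : ℝ) * rr F ^ (2 * e.natDegree) ≤ rr F ^ (2 * n) := by
  rcases S.eq_empty_or_nonempty with rfl | ⟨c, hc⟩
  · simp [rr_pos.le]
  have : #S ≤ #(Lt F (n - e.natDegree)) := by
    refine card_le_card_of_injOn (fun a => (a - c) / e) (fun a ha => ?_) fun a ha b hb h => ?_
    · obtain ⟨t, ht⟩ := h2 a ha c hc
      have h3 := h1 a ha c hc
      simp only [ht, mul_div_cancel_left₀ _ he]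
      refine mem_coe.2 (mem_Lt_of fun h0 => ?_)
      rw [ht, mem_Lt' (mul_ne_zero he h0), natDegree_mul he h0] at h3
      omega
    · obtain ⟨t, ht⟩ := h2 a ha c hc
      obtain ⟨s, hs⟩ := h2 b hb c hc
      simp only [ht, hs, mul_div_cancel_left₀ _ he] at h
      rw [← sub_left_inj (a := c), ht, hs, h]
  rw [card_Lt] at this
  have h3 : (#S : ℝ) ≤ rr F ^ (2 * (n - e.natDegree)) := by rw [← q_pow]; exact_mod_cast this
  refine (mul_le_mul_of_nonneg_right h3 (pow_pos rr_pos _).le).trans_eq ?_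
  rw [← pow_add]; congr 1; omega

theorem mult_Lt {e : F[X]} (he : e ≠ 0) (n : ℕ) (S : Finset F[X])
    (h : ∀ a ∈ S, a ∈ Lt F n ∧ a ≠ 0 ∧ e ∣ a) :
    (#S : ℝ) * rr F ^ (2 * e.natDegree) ≤ rr F ^ (2 * n) := by
  rcases S.eq_empty_or_nonempty with rfl | ⟨c, hc⟩
  · simp [rr_pos.le]
  obtain ⟨h1, h2, h3⟩ := h c hc
  exact mult he ((natDegree_le_of_dvd h3 h2).trans ((mem_Lt' h2).1 h1).le) S
    (fun a ha b hb => sub_mem_Lt (h a ha).1 (h b hb).1)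
    fun a ha b hb => dvd_sub (h a ha).2.2 (h b hb).2.2

theorem mult_Mo {e : F[X]} (he : e ≠ 0) (n : ℕ) (S : Finset F[X])
    (h : ∀ a ∈ S, a ∈ Mo F n ∧ e ∣ a) :
    (#S : ℝ) * rr F ^ (2 * e.natDegree) ≤ rr F ^ (2 * n) := by
  rcases S.eq_empty_or_nonempty with rfl | ⟨c, hc⟩
  · simp [rr_pos.le]
  obtain ⟨h1, h3⟩ := h c hc
  obtain ⟨h2, h4⟩ := mem_Mo.1 h1
  exact mult he ((natDegree_le_of_dvd h3 h2.ne_zero).trans h4.le) S
    (fun a ha b hb => sub_of_Mo (h a ha).1 (h b hb).1)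
    fun a ha b hb => dvd_sub (h a ha).2 (h b hb).2

theorem geo (h : 5 ≤ rr F) (S : Finset ℕ) : ∑ i ∈ S, (rr F)⁻¹ ^ i ≤ 5 / 4 := by
  have h0 : 0 ≤ (rr F)⁻¹ := (inv_pos.2 rr_pos).le
  have h1 : (rr F)⁻¹ ≤ 1 / 5 := by rw [one_div]; exact inv_anti₀ (by norm_num) h
  have h2 := hasSum_geometric_of_lt_one (r := (1 / 5 : ℝ)) (by norm_num) (by norm_num)
  refine (sum_le_sum fun i _ => pow_le_pow_left₀ h0 h1 i).trans
    ((sum_le_hasSum S (fun i _ => by positivity) h2).trans_eq (by norm_num))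

/-- a sum of powers with distinct exponents at most `m` -/
theorem geo' (h : 5 ≤ rr F) {ι : Type} (S : Finset ι) (φ : ι → ℕ) (m : ℕ) (h1 : Set.InjOn φ S)
    (h2 : ∀ i ∈ S, φ i ≤ m) : ∑ i ∈ S, rr F ^ φ i ≤ 5 / 4 * rr F ^ m := by
  have h3 := geo h (S.image fun i => m - φ i)
  rw [sum_image fun i hi j hj e => h1 hi hj (by
    have := h2 i hi; have := h2 j hj; omega)] at h3
  refine le_trans (le_of_eq ?_) (mul_le_mul_of_nonneg_right h3 (pow_pos rr_pos _).le)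
  rw [sum_mul]
  refine sum_congr rfl fun i hi => ?_
  have := (rr_pos (F := F)).ne'
  obtain ⟨k, hk⟩ := Nat.exists_eq_add_of_le (h2 i hi)
  rw [hk, Nat.add_sub_cancel_left, pow_add, inv_pow]; field_simp

theorem zeta (h : 5 ≤ rr F) (M : ℕ) {s : ℕ} (hs : 3 ≤ s) :
    ∑ f ∈ Mle F M, (rr F)⁻¹ ^ (s * f.natDegree) ≤ 5 / 4 := by
  have h0 : 0 < (rr F)⁻¹ := inv_pos.2 rr_pos
  have h1 : (rr F)⁻¹ ≤ 1 := inv_le_one_of_one_le₀ (by linarith)
  rw [Mle, sum_biUnion fun i _ j _ hij => disjoint_left.2 fun p hi hj =>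
    hij ((mem_Mo.1 hi).2.symm.trans (mem_Mo.1 hj).2)]
  refine (sum_le_sum fun i _ => ?_).trans (geo h _)
  rw [sum_congr rfl fun p hp => by rw [(mem_Mo.1 hp).2], sum_const, card_Mo, nsmul_eq_mul,
    Nat.cast_pow, q_pow]
  refine (mul_le_mul_of_nonneg_left (pow_le_pow_of_le_one h0.le h1
    (Nat.mul_le_mul_right i hs)) (pow_pos rr_pos _).le).trans_eq ?_
  have := (rr_pos (F := F)).ne'
  rw [inv_pow, inv_pow]; field_simp; ring

/-- product with multiplicities -/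
noncomputable def Kt (t : Fin 4 → F[X]) : F[X] := t 0 * t 1 ^ 2 * t 2 ^ 3 * t 3 ^ 4

/-- plain product -/
noncomputable def Nt (t : Fin 4 → F[X]) : F[X] := t 0 * t 1 * t 2 * t 3

variable (F) in
/-- quadruples of monic polynomials -/
noncomputable def Tu (M : ℕ) : Finset (Fin 4 → F[X]) := Fintype.piFinset fun _ => Mle F M

variable (F) in
/-- a monic polynomial and a quadruple -/
noncomputable def PT (M : ℕ) : Finset (F[X] × (Fin 4 → F[X])) := Mle F M ×ˢ Tu F M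

theorem mem_Tu {M : ℕ} {t : Fin 4 → F[X]} : t ∈ Tu F M ↔ ∀ i, t i ∈ Mle F M :=
  Fintype.mem_piFinset

theorem Kt_monic {t : Fin 4 → F[X]} (h : ∀ i, (t i).Monic) : (Kt t).Monic :=
  (((h 0).mul ((h 1).pow 2)).mul ((h 2).pow 3)).mul ((h 3).pow 4)

theorem Nt_monic {t : Fin 4 → F[X]} (h : ∀ i, (t i).Monic) : (Nt t).Monic :=
  (((h 0).mul (h 1)).mul (h 2)).mul (h 3)

theorem dvd_Nt (t : Fin 4 → F[X]) (i : Fin 4) : t i ∣ Nt t := by
  have : Nt t = ∏ i, t i := by rw [Fin.prod_univ_four, Nt]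
  exact this ▸ dvd_prod_of_mem _ (mem_univ i)

theorem zeta5 (h : 5 ≤ rr F) (M : ℕ) : ∑ x ∈ PT F M,
    (rr F)⁻¹ ^ (3 * x.1.natDegree + ((Kt x.2).natDegree + 2 * (Nt x.2).natDegree)) ≤
      (5 / 4) ^ 5 := by
  have h0 : 0 < (rr F)⁻¹ := inv_pos.2 rr_pos
  have h1 : ∑ t ∈ Tu F M, (rr F)⁻¹ ^ ((Kt t).natDegree + 2 * (Nt t).natDegree) =
      ∏ i : Fin 4, ∑ f ∈ Mle F M, (rr F)⁻¹ ^ ((i + 3) * f.natDegree) := by
    rw [prod_univ_sum]
    refine sum_congr rfl fun t ht => ?_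
    have m := fun i => (mem_Mle.1 (mem_Tu.1 ht i)).1
    rw [prod_pow_eq_pow_sum, Fin.sum_univ_four, Kt, Nt,
      (((m 0).mul ((m 1).pow 2)).mul ((m 2).pow 3)).natDegree_mul ((m 3).pow 4),
      ((m 0).mul ((m 1).pow 2)).natDegree_mul ((m 2).pow 3), (m 0).natDegree_mul ((m 1).pow 2),
      (((m 0).mul (m 1)).mul (m 2)).natDegree_mul (m 3), ((m 0).mul (m 1)).natDegree_mul (m 2),
      (m 0).natDegree_mul (m 1), natDegree_pow, natDegree_pow, natDegree_pow]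
    congr 1
    simp only [Fin.val_zero, Fin.val_one, Fin.val_two, show ((3 : Fin 4) : ℕ) = 3 from rfl]
    ring
  have h2 : ∏ i : Fin 4, ∑ f ∈ Mle F M, (rr F)⁻¹ ^ ((i + 3) * f.natDegree) ≤ (5 / 4) ^ 4 := by
    refine (prod_le_prod (g := fun _ => 5 / 4) (fun i _ => by positivity)
      fun i _ => zeta h M (by omega)).trans_eq (by rw [prod_const, card_univ, Fintype.card_fin])
  simp only [PT, sum_product, pow_add ((rr F)⁻¹) (3 * _), ← mul_sum, ← sum_mul, h1]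
  exact (mul_le_mul (zeta h M le_rfl) h2 (by positivity) (by norm_num)).trans_eq (by ring)

theorem fac_step {e Δ : F[X]} (he : e ≠ 0) (m : ℕ) (h : e ∣ Δ ^ (m + 1)) :
    ∃ E e' : F[X], E.Monic ∧ e' ≠ 0 ∧ e = E * e' ∧ E ∣ Δ ∧ e' ∣ E ^ m := by
  have h0 : gcd e Δ ≠ 0 := fun z => he ((gcd_eq_zero_iff _ _).1 z).1
  obtain ⟨e', h1⟩ := gcd_dvd_left e Δ
  refine ⟨gcd e Δ, e', ?_, fun z => he (by rw [h1, z, mul_zero]), h1, gcd_dvd_right _ _, ?_⟩
  · rw [← _root_.normalize_gcd]; exact monic_normalize h0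
  · obtain ⟨a, b, h2⟩ := exists_gcd_eq_mul_add_mul e Δ
    have h3 : e ∣ gcd e Δ ^ (m + 1) := by
      have h4 : gcd e Δ - Δ * b ∣ gcd e Δ ^ (m + 1) - (Δ * b) ^ (m + 1) := sub_dvd_pow_sub_pow _ _ _
      have h5 : e ∣ gcd e Δ - Δ * b := ⟨a, by linear_combination h2⟩
      have h6 := dvd_add (h5.trans h4) (h.mul_right (b ^ (m + 1)))
      rwa [mul_pow, sub_add_cancel] at h6
    rw [pow_succ'] at h3
    exact (mul_dvd_mul_iff_left h0).1 (h1 ▸ h3)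

theorem fac {e Δ : F[X]} (he : e ≠ 0) (h : e ∣ Δ ^ 5) : ∃ (E : F[X]) (t : Fin 4 → F[X]),
    (∀ i, (t i).Monic) ∧ e = E * Kt t ∧ Nt t ∣ E ∧ E ∣ Δ := by
  obtain ⟨E1, e1, -, n1, rfl, d1, h1⟩ := fac_step he 4 h
  obtain ⟨E2, e2, m2, n2, rfl, d2, h2⟩ := fac_step n1 3 h1
  obtain ⟨E3, e3, m3, n3, rfl, ⟨f2, rfl⟩, h3⟩ := fac_step n2 2 h2
  obtain ⟨E4, e4, m4, n4, rfl, ⟨f3, rfl⟩, h4⟩ := fac_step n3 1 h3
  obtain ⟨f5, e5, m5, n5, rfl, ⟨f4, rfl⟩, h5⟩ := fac_step n4 0 h4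
  have u : IsUnit e5 := isUnit_of_dvd_one (by simpa using h5)
  refine ⟨E1 * e5, ![f2, f3, f4, f5], fun i => ?_, by simp [Kt]; ring, ?_, u.mul_right_dvd.2 d1⟩
  · fin_cases i
    exacts [m3.of_mul_monic_left m2, m4.of_mul_monic_left m3, m5.of_mul_monic_left m4, m5]
  · refine Dvd.dvd.mul_right (dvd_trans (dvd_of_eq ?_) d2) _
    simp [Nt]; ring

end Pool.Agent.P.MP_16b5eb_nt.F5
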