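import Pool.Agent.P.MP_16b5eb_nt.F5.Pell
import Pool.Agent.P.MP_16b5eb_nt.Prim
import Pool.Agent.P.MP_16b5eb_nt.Field

/-! The final count. -/

set_option autoImplicit false
set_option linter.unusedSectionVars false

namespace Pool.Agent.P.MP_16b5eb_nt.F5

open Polynomial Finset
open scoped Classical

variable {F : Type} [Field F] [Fintype F] [CharP F 5]

theorem nonsq (h : 5 ≤ rr F) (n : ℕ) :
    (#{D ∈ Mo F n | ¬Squarefree D} : ℝ) ≤ 1 / 4 / rr F * rr F ^ (2 * n) := by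
  have r0 := rr_pos (F := F)
  have h1 : {D ∈ Mo F n | ¬Squarefree D} ⊆
      ((Mle F n).erase 1).biUnion fun P => {D ∈ Mo F n | P * P ∣ D} := fun D hD => by
    obtain ⟨hD, hs⟩ := mem_filter.1 hD
    obtain ⟨m, d⟩ := mem_Mo.1 hD
    obtain ⟨P, h1, h2⟩ : ∃ P, P * P ∣ D ∧ ¬IsUnit P := by
      by_contra hh
      exact hs fun P hP => by_contra fun z => hh ⟨P, hP, z⟩
    have h0 : P ≠ 0 := fun z => m.ne_zero (by simpa [z] using h1)
    have h3 := (normalize_associated P).mul_mul (normalize_associated P)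
    refine mem_biUnion.2 ⟨normalize P, mem_erase.2 ⟨fun z => h2 (normalize_eq_one.1 z),
      mem_Mle.2 ⟨monic_normalize h0, ?_⟩⟩, mem_filter.2 ⟨hD, h3.dvd.trans h1⟩⟩
    exact d ▸ natDegree_le_of_dvd ((dvd_mul_right _ _).trans (h3.dvd.trans h1)) m.ne_zero
  have h2 := zeta h n le_rfl
  rw [← add_sum_erase _ _ (mem_Mle.2 ⟨monic_one, by simp⟩), natDegree_one, pow_zero] at h2
  have h3 : (#{D ∈ Mo F n | ¬Squarefree D} : ℝ) ≤
      ∑ P ∈ (Mle F n).erase 1, (#{D ∈ Mo F n | P * P ∣ D} : ℝ) := by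
    exact_mod_cast (card_le_card h1).trans card_biUnion_le
  refine h3.trans ((sum_le_sum (g := fun P => (rr F)⁻¹ ^ (3 * P.natDegree) *
    (rr F ^ (2 * n) / rr F)) fun P hP => ?_).trans ?_)
  · obtain ⟨h4, h5⟩ := mem_erase.1 hP
    have m := (mem_Mle.1 h5).1
    have h6 := mult_Mo (m.mul m).ne_zero n _ fun a ha => mem_filter.1 ha
    have h7 : P.natDegree ≠ 0 := fun z => h4 (m.natDegree_eq_zero.1 z)
    rw [m.natDegree_mul m] at h6
    rw [inv_pow, inv_mul_eq_div, div_div, le_div_iff₀ (by positivity), ← pow_succ']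
    exact (mul_le_mul_of_nonneg_left (pow_le_pow_right₀ (by linarith) (by omega))
      (by positivity)).trans h6
  · rw [← sum_mul]
    exact (mul_le_mul_of_nonneg_right (by linarith : _ ≤ (1 / 4 : ℝ)) (by positivity)).trans_eq
      (by ring)

theorem final (h : 5 ≤ rr F) {g : ℕ} (hg : 1 ≤ g) (Good : F[X] → Prop)
    (H : ∀ D ∈ Mo F (2 * g + 2), Squarefree D → 5 ≤ #(Om g D) ∧ (¬Good D → 25 ≤ #(Om g D))) :
    (19 / 20 - 3 / rr F) * rr F ^ (2 * (2 * g + 2)) ≤
      #{D ∈ Mo F (2 * g + 2) | Squarefree D ∧ Good D} := by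
  have r0 := rr_pos (F := F)
  have h1 : ∀ D ∈ Mo F (2 * g + 2), (25 : ℝ) ≤ #(Om g D) + (25 * (if ¬Squarefree D then 1 else 0) +
      20 * if Squarefree D ∧ Good D then 1 else 0) := fun D hD => by
    have : (0 : ℝ) ≤ #(Om g D) := Nat.cast_nonneg _
    by_cases a : Squarefree D
    · have a1 : (5 : ℝ) ≤ #(Om g D) := by exact_mod_cast (H D hD a).1
      by_cases b : Good D
      · rw [if_neg (not_not.2 a), if_pos ⟨a, b⟩]; linarith
      · have a2 : (25 : ℝ) ≤ #(Om g D) := by exact_mod_cast (H D hD a).2 b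
        rw [if_neg (not_not.2 a), if_neg fun z => b z.2]; linarith
    · rw [if_pos a, if_neg fun z => a z.1]; linarith
  have h2 := sum_le_sum h1
  rw [sum_add_distrib, sum_add_distrib, ← mul_sum, ← mul_sum, sum_boole, sum_boole, sum_const,
    nsmul_eq_mul, card_Mo, Nat.cast_pow, q_pow] at h2
  have h3 := count h hg
  have h4 := nonsq h (2 * g + 2)
  have h5 : 0 < rr F ^ (2 * (2 * g + 2)) / rr F := by positivity
  simp only [div_eq_mul_inv] at *
  nlinarith

theorem glue {g : ℕ} {D : F[X]} (hD : D ∈ Mo F (2 * g + 2)) (hs : Squarefree D) :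
    5 ≤ #(Om g D) ∧ (¬(∃ K : IntermediateField (RatFunc F) (AlgebraicClosure (RatFunc F)),
      (∃ y : K, y ^ 2 = algebraMap (RatFunc F) K (algebraMap F[X] (RatFunc F) D)) ∧
      Module.finrank (RatFunc F) K = 2 ∧
      (∃ φ : K →+* LaurentSeries F,
        ∀ p : Polynomial F,
          φ (algebraMap (RatFunc F) K (algebraMap (Polynomial F) (RatFunc F) p)) =
            p.eval₂ (HahnSeries.C : F →+* LaurentSeries F)
              (HahnSeries.single (-1 : ℤ) (1 : F) : LaurentSeries F)) ∧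
      ¬5 ∣ Nat.card (ClassGroup (integralClosure F[X] K))) → 25 ≤ #(Om g D)) := by
  obtain ⟨m, d⟩ := mem_Mo.1 hD
  have hn := noRoot hs (by omega)
  have := isDedekind_qa (nonSing_odd two_ne hs) hn
  obtain ⟨e, h1, h2⟩ := pell hD hn
  obtain ⟨e, G, he, hG, h⟩ := unit_DL hs (by omega) hn _ e h1 h2 rfl
  refine ⟨om5 hD he hG h, fun hK => om25 hD hs hn he hG h (by_contra fun h5 => hK ?_)⟩
  have h3 := field F (reflect (2 * g + 2) D) 0 g 1 (natDegree_reflect_le.trans (by omega))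
    (by simp) (by rw [← coeff_zero_eq_eval_zero, coeff_reflect, revAt_zero, ← d]; simp [m])
    (by simpa using two_ne)
  rw [reflect_reflect, reflect_zero] at h3
  obtain ⟨K, k1, k2, ⟨ε⟩⟩ := h3 hn
  refine ⟨K, ⟨ε QuadraticAlgebra.omega, ?_⟩, k1, k2, ?_⟩
  · rw [← IsScalarTower.algebraMap_apply, ← Subalgebra.coe_pow, ← map_pow, sq,
      QuadraticAlgebra.omega_mul_omega_eq_mk, ← QuadraticAlgebra.algebraMap_eq, ε.commutes]
    rfl
  · rwa [← Nat.card_congr (ClassGroup.mulEquiv ε.toRingEquiv).toEquiv]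

theorem five_le (h : 0 < 19 / 20 - 3 / rr F) : 5 ≤ rr F := by
  have r0 := rr_pos (F := F)
  obtain ⟨n, -, hn⟩ := FiniteField.card F 5
  refine Real.le_sqrt_of_sq_le ?_
  have h1 : 3 < rr F := by
    rw [sub_pos, div_lt_iff₀ r0] at h
    linarith
  have h2 : (9 : ℝ) < Fintype.card F := by rw [← rr_sq]; nlinarith
  have h3 : 9 < Fintype.card F := by exact_mod_cast h2
  have h4 : 2 ≤ (n : ℕ) := by
    by_contra h4
    have : 5 ^ (n : ℕ) ≤ 5 ^ 1 := Nat.pow_le_pow_right (by norm_num) (by omega)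
    omega
  rw [hn]
  exact_mod_cast Nat.pow_le_pow_right (by norm_num) h4

end Pool.Agent.P.MP_16b5eb_nt.F5
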