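import Pool.Agent.P.MP_16b5eb_nt.F5.Tot

/-! Gauss sums: the mean number of solutions of the Cartier equation. -/

set_option autoImplicit false
set_option linter.unusedSectionVars false

namespace Pool.Agent.P.MP_16b5eb_nt.F5

open Polynomial Finset
open scoped Classical

variable {F : Type} [Field F] [Fintype F] [CharP F 5]

/-- numerators of logarithmic differentials -/
noncomputable def Om (g : ℕ) (D : F[X]) : Finset F[X] :=
  {G ∈ Lt F (g + 1) | derivative^[4] (G * D ^ 2) = -G ^ 5}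

theorem five : (5 : F) = 0 := CharP.cast_eq_zero F 5

theorem five' : (5 : F[X]) = 0 := CharP.cast_eq_zero F[X] 5

theorem two_ne : (2 : F) ≠ 0 := fun h => one_ne_zero (by
  linear_combination five (F := F) - 2 * h : (1 : F) = 0)

theorem c4 (H : F[X]) (j : ℕ) : (derivative^[4] H).coeff (5 * j) = -H.coeff (5 * j + 4) := by
  rw [coeff_iterate_derivative, nsmul_eq_mul]
  simp only [Nat.descFactorial_succ, Nat.descFactorial_zero, show 5 * j + 4 - 3 = 5 * j + 1 by omega,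
    show 5 * j + 4 - 2 = 5 * j + 2 by omega, show 5 * j + 4 - 1 = 5 * j + 3 by omega,
    Nat.sub_zero]
  push_cast
  rw [five]
  linear_combination (5 * H.coeff (5 * j + 4)) * five (F := F)

theorem d5 (L H : F[X]) : derivative (L ^ 5 * H) = L ^ 5 * derivative H := by
  rw [derivative_mul, derivative_pow, Nat.cast_ofNat, five, map_zero]; ring

theorem d5' (L H : F[X]) (k : ℕ) : derivative^[k] (L ^ 5 * H) = L ^ 5 * derivative^[k] H := by
  induction k with
  | zero => rfl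
  | succ k ih => rw [Function.iterate_succ_apply', ih, d5, Function.iterate_succ_apply']

theorem Om_sub {g : ℕ} {D G : F[X]} (hD : D ∈ Mo F (2 * g + 2)) (h : G ∈ Om g D) (h0 : G ≠ 0) :
    G ∈ GG F g := by
  obtain ⟨h1, h2⟩ := mem_filter.1 h
  obtain ⟨m, d⟩ := mem_Mo.1 hD
  rw [mem_Lt_succ] at h1
  refine mem_GG.2 ⟨h1, h0, ?_⟩
  have h3 := congrArg (coeff · (5 * g)) h2
  have h4 : (D ^ 2).natDegree = 4 * g + 4 := by rw [natDegree_pow, d]; ring
  simp only [c4, coeff_neg, coeff_pow_of_natDegree_le h1, neg_inj] at h3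
  rw [show 5 * g + 4 = g + (4 * g + 4) by ring, coeff_mul_add_eq_of_natDegree_le h1 h4.le,
    ← h4, (m.pow 2).coeff_natDegree, mul_one] at h3
  exact h3.symm

theorem sum_char {V : Type} [AddCommGroup V] [Fintype V] (ψ : AddChar F ℂ) (φ : V →+ F) :
    ∑ v, ψ (φ v) = if ∀ v, ψ (φ v) = 1 then (Fintype.card V : ℂ) else 0 := by
  have := (ψ.compAddMonoidHom φ).sum_eq_ite
  simpa only [AddChar.eq_zero_iff, AddChar.compAddMonoidHom_apply] using this

/-- the linear form attached to `L` -/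
noncomputable def ell (g : ℕ) (L : F[X]) : F[X] →ₗ[F] F :=
  (lcoeff F (5 * g - 1)).comp (LinearMap.mulLeft F (L ^ 5))

theorem ell_apply (g : ℕ) (L H : F[X]) : ell g L H = (L ^ 5 * H).coeff (5 * g - 1) := rfl

theorem mem_Ker {g : ℕ} (hg : 1 ≤ g) {G L k : F[X]} (hk : k ∈ Lt F (2 * g + 2))
    (h : ∀ i < 2 * g + 2, ell g L (G * k * X ^ i) = 0) : k ∈ Ker g G L := by
  refine mem_filter.2 ⟨hk, (L ^ 5 * (G * k)) /ₘ X ^ (5 * g), (L ^ 5 * (G * k)) %ₘ X ^ (5 * g),
    natDegree_le_iff_coeff_eq_zero.2 fun m hm => ?_,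
    by rw [add_comm, mul_comm _ (X ^ _), modByMonic_add_div]⟩
  rcases le_or_gt (5 * g) m with h1 | h1
  · exact coeff_eq_zero_of_degree_lt ((mem_Lt.1 (mod_mem_Lt _ _)).trans_le (by exact_mod_cast h1))
  · have h2 := h (5 * g - 1 - m) (by omega)
    rw [ell_apply, ← mul_assoc, coeff_mul_X_pow', if_pos (by omega),
      show 5 * g - 1 - (5 * g - 1 - m) = m by omega,
      ← modByMonic_add_div (L ^ 5 * (G * k)) (X ^ (5 * g)), coeff_add, coeff_X_pow_mul',
      if_neg (by omega), add_zero] at h2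
    exact h2

theorem gauss {g : ℕ} (hg : 1 ≤ g) {ψ : AddChar F ℂ} (hψ : ψ ≠ 1) (G L H : F[X]) :
    ‖∑ D ∈ Mo F (2 * g + 2), ψ (ell g L (G * D ^ 2 - H))‖ ≤
      rr F ^ (2 * g + 2) * √(#(Ker g G L) : ℝ) := by
  have r0 := rr_pos (F := F)
  set n := 2 * g + 2
  let u : degreeLT F n → ℂ := fun m => ψ (ell g L (G * (X ^ n + (m : F[X])) ^ 2 - H))
  have key : ∀ k : degreeLT F n, ‖∑ m, u (m + k) * (starRingEnd ℂ) (u m)‖ ≤
      if (k : F[X]) ∈ Ker g G L then rr F ^ (2 * n) else 0 := by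
    intro k
    obtain ⟨φ, hφ⟩ : ∃ φ : degreeLT F n →ₗ[F] F, ∀ m, φ m = 2 * ell g L (G * k * m) :=
      ⟨(2 : F) • ((ell g L).comp (LinearMap.mulLeft F (G * k))).comp (Submodule.subtype _),
        fun m => by simp [mul_assoc]⟩
    have e : ∀ m, u (m + k) * (starRingEnd ℂ) (u m) =
        ψ (ell g L (G * (k : F[X]) * (2 * X ^ n + (k : F[X])))) * ψ (φ.toAddMonoidHom m) := fun m => by
      simp only [u]
      rw [← AddChar.map_neg_eq_conj, ← AddChar.map_add_eq_mul, ← AddChar.map_add_eq_mul, ← map_neg,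
        ← map_add]
      rw [LinearMap.toAddMonoidHom_coe, hφ, two_mul (ell g L _), ← map_add, ← map_add]
      congr 2
      push_cast; ring
    simp only [e]
    rw [← mul_sum, norm_mul, AddChar.norm_apply, one_mul, sum_char]
    split_ifs with h1 h2 h2
    · rw [Complex.norm_natCast, card_deg, Nat.cast_pow, q_pow]
    · refine absurd (mem_Ker hg (mem_Lt.2 (mem_degreeLT.1 k.2)) fun i hi => ?_) h2
      by_contra h3
      obtain ⟨c, hc⟩ := AddChar.ne_one_iff.1 hψ
      have h4 := h1 ((c / (2 * ell g L (G * (k : F[X]) * X ^ i))) • ⟨X ^ i, mem_degreeLT.2 (by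
        rw [degree_X_pow]; exact_mod_cast hi)⟩)
      rw [LinearMap.toAddMonoidHom_coe, map_smul, hφ, smul_eq_mul,
        div_mul_cancel₀ _ (mul_ne_zero two_ne h3)] at h4
      exact hc h4
    · simp [r0.le]
    · simp
  have e2 : (∑ m, u m) * (starRingEnd ℂ) (∑ m, u m) =
      ∑ k, ∑ m, u (m + k) * (starRingEnd ℂ) (u m) := by
    rw [map_sum, mul_sum, sum_comm]
    exact sum_congr rfl fun m _ => by rw [← sum_mul, Equiv.sum_comp (Equiv.addLeft m) u |>.symm]; rfl
  have e3 := (norm_sum_le _ _).trans (sum_le_sum fun k (_ : k ∈ univ) => key k)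
  rw [← e2, norm_mul, RCLike.norm_conj, ← sum_Lt n
    (fun k => if k ∈ Ker g G L then rr F ^ (2 * n) else 0), ← sum_filter, sum_const,
    filter_mem_eq_inter, inter_eq_right.2 (show Ker g G L ⊆ Lt F n from filter_subset _ _), nsmul_eq_mul] at e3
  rw [sum_Mo]
  refine abs_le_of_sq_le_sq' ?_ (by positivity) |>.2
  rw [mul_pow, Real.sq_sqrt (Nat.cast_nonneg _), ← pow_mul, mul_comm n, sq, mul_comm (rr F ^ _)]
  exact e3

theorem fib_le {g : ℕ} (hg : 1 ≤ g) (G : F[X]) :
    (#{D ∈ Mo F (2 * g + 2) | G ∈ Om g D} : ℝ) * rr F ^ (2 * g) ≤ rr F ^ (2 * (2 * g + 2)) +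
      rr F ^ (2 * g + 2) * ∑ L ∈ (Lt F g).erase 0, √(#(Ker g G L) : ℝ) := by
  have r0 := rr_pos (F := F)
  have : Fact (Nat.Prime 5) := ⟨by norm_num⟩
  obtain ⟨ψ, h1⟩ := (AddChar.exists_apply_ne_zero (a := (1 : F))).2 one_ne_zero
  have hψ : ψ ≠ 1 := AddChar.ne_one_iff.2 ⟨1, h1⟩
  have key : ∀ D, (if G ∈ Om g D then rr F ^ (2 * g) else 0) ≤
      (∑ L ∈ Lt F g, ψ (ell g L (G * D ^ 2 - G ^ 5 * X ^ 4))).re := by
    intro D
    let φ : degreeLT F g →+ F := AddMonoidHom.mk' (fun L => ell g L (G * D ^ 2 - G ^ 5 * X ^ 4))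
      fun a b => by simp only [ell_apply, Submodule.coe_add, add_pow_char, add_mul, coeff_add]
    rw [sum_Lt, show ∑ L : degreeLT F g, ψ (ell g L (G * D ^ 2 - G ^ 5 * X ^ 4)) = _ from
      sum_char ψ φ]
    split_ifs with h1 h2 h2
    · rw [Complex.natCast_re, card_deg, Nat.cast_pow, q_pow]
    · refine absurd (fun L => ?_) h2
      have h3 := c4 ((L : F[X]) ^ 5 * (G * D ^ 2 - G ^ 5 * X ^ 4)) (g - 1)
      have h4 : derivative^[4] (X ^ 4 : F[X]) = -1 := by
        rw [iterate_derivative_X_pow_eq_natCast_mul]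
        norm_num [Nat.descFactorial]
        linear_combination 5 * five' (F := F)
      rw [d5', iterate_derivative_sub, d5', h4, (mem_filter.1 h1).2, mul_neg_one, sub_self,
        mul_zero, coeff_zero, show 5 * (g - 1) + 4 = 5 * g - 1 by omega, eq_comm, neg_eq_zero] at h3
      exact (congrArg ψ h3).trans ψ.map_zero_eq_one
    · simp
    · simp
  have h2 := sum_le_sum fun D (_ : D ∈ Mo F (2 * g + 2)) => key D
  rw [← sum_filter, sum_const, nsmul_eq_mul, ← Complex.re_sum, sum_comm,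
    ← add_sum_erase _ _ (zero_mem_Lt g)] at h2
  refine h2.trans ((Complex.re_le_norm _).trans ((norm_add_le _ _).trans (add_le_add
    ((norm_sum_le _ _).trans_eq ?_) ((norm_sum_le _ _).trans ?_))))
  · simp only [AddChar.norm_apply]
    rw [sum_const, nsmul_one, card_Mo, Nat.cast_pow, q_pow]
  · rw [mul_sum]
    exact sum_le_sum fun L _ => gauss hg hψ G L _

theorem count (h : 5 ≤ rr F) {g : ℕ} (hg : 1 ≤ g) :
    ∑ D ∈ Mo F (2 * g + 2), (#(Om g D) : ℝ) ≤ (6 + 48 / rr F) * rr F ^ (2 * (2 * g + 2)) := by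
  have r0 := rr_pos (F := F)
  have h1 : ∑ D ∈ Mo F (2 * g + 2), (#(Om g D) : ℝ) ≤
      ∑ D ∈ Mo F (2 * g + 2), (1 + (#{G ∈ GG F g | G ∈ Om g D} : ℝ)) :=
    sum_le_sum fun D hD => by
      have : Om g D ⊆ insert 0 {G ∈ GG F g | G ∈ Om g D} := fun G hG => by
        by_cases h0 : G = 0
        · exact h0 ▸ mem_insert_self _ _
        · exact mem_insert_of_mem (mem_filter.2 ⟨Om_sub hD hG h0, hG⟩)
      rw [add_comm]
      exact_mod_cast (card_le_card this).trans (card_insert_le _ _)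
  have h2 : ∑ D ∈ Mo F (2 * g + 2), (#{G ∈ GG F g | G ∈ Om g D} : ℝ) =
      ∑ G ∈ GG F g, (#{D ∈ Mo F (2 * g + 2) | G ∈ Om g D} : ℝ) := by
    simp only [card_filter, Nat.cast_sum]
    exact sum_comm
  have h3 := sum_le_sum fun G (_ : G ∈ GG F g) => fib_le hg G
  rw [← sum_mul, sum_add_distrib, sum_const, nsmul_eq_mul, ← mul_sum, ← h2] at h3
  rw [sum_add_distrib, sum_const, nsmul_one, card_Mo, Nat.cast_pow, q_pow] at h1
  have h4 := h3.trans (add_le_add (mul_le_mul_of_nonneg_right (card_GG g) (by positivity))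
    (mul_le_mul_of_nonneg_left (total h hg) (by positivity)))
  rw [← le_div_iff₀ (by positivity)] at h4
  refine h1.trans ((add_le_add_right h4 _).trans_eq ?_)
  field_simp
  ring

end Pool.Agent.P.MP_16b5eb_nt.F5
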