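import Pool.Agent.P.MP_16b5eb_nt.F5.Base

/-! Reduced bases of the approximation lattice and the kernel decomposition. -/

set_option autoImplicit false
set_option linter.unusedSectionVars false

namespace Pool.Agent.P.MP_16b5eb_nt.F5

open Polynomial Finset
open scoped Classical

variable {F : Type} [Field F] [Fintype F]

theorem mod_mem_Lt (p : F[X]) (n : ℕ) : p %ₘ X ^ n ∈ Lt F n := by
  have := degree_modByMonic_lt p (monic_X_pow (R := F) n)
  rw [degree_X_pow] at this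
  exact mem_Lt.2 this

theorem Lt_mono {m n : ℕ} (h : m ≤ n) {p : F[X]} (hp : p ∈ Lt F m) : p ∈ Lt F n :=
  mem_Lt_of fun h0 => ((mem_Lt' h0).1 hp).trans_le h

theorem mul_mem_Lt {m n : ℕ} {p q : F[X]} (hp : p.natDegree ≤ m) (hq : q ∈ Lt F n) :
    p * q ∈ Lt F (m + n) := mem_Lt_of fun h0 => by
  have h1 := (mem_Lt' (right_ne_zero_of_mul h0)).1 hq
  have h2 : (p * q).natDegree ≤ _ := natDegree_mul_le
  omega

theorem of_mul_X_pow {m n : ℕ} {p : F[X]} (h : p * X ^ m ∈ Lt F (n + m)) : p ∈ Lt F n :=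
  mem_Lt_of fun h0 => by
    rw [mem_Lt' (mul_ne_zero h0 (pow_ne_zero _ X_ne_zero)), natDegree_mul_X_pow _ h0] at h
    omega

theorem pig (S : F[X]) {M a b : ℕ} (h : M < a + b) (hb : 0 < b) :
    ∃ B ∈ Lt F b, B ≠ 0 ∧ ∃ P, B * S - P * X ^ M ∈ Lt F a := by
  obtain ⟨B1, h1, B2, h2, h3, h4⟩ := exists_ne_map_eq_of_card_lt_of_maps_to
    (s := Lt F b) (t := Lt F (M - a)) (f := fun B => (B * S %ₘ X ^ M) /ₘ X ^ a)
    (by rw [card_Lt, card_Lt]; exact Nat.pow_lt_pow_right Fintype.one_lt_card (by omega))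
    fun B _ => by
      refine mem_coe.2 (of_mul_X_pow (m := a) ?_)
      have e := modByMonic_add_div (B * S %ₘ X ^ M) (X ^ a : F[X])
      rw [mul_comm, eq_sub_of_add_eq' e]
      exact sub_mem_Lt (Lt_mono (by omega) (mod_mem_Lt _ _)) (Lt_mono (by omega) (mod_mem_Lt _ _))
  refine ⟨B1 - B2, sub_mem_Lt h1 h2, sub_ne_zero.2 h3, B1 * S /ₘ X ^ M - B2 * S /ₘ X ^ M, ?_⟩
  have e1 := modByMonic_add_div (B1 * S) (X ^ M : F[X])
  have e2 := modByMonic_add_div (B2 * S) (X ^ M : F[X])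
  have e3 := modByMonic_add_div (B1 * S %ₘ X ^ M) (X ^ a : F[X])
  have e4 := modByMonic_add_div (B2 * S %ₘ X ^ M) (X ^ a : F[X])
  have e : (B1 - B2) * S - (B1 * S /ₘ X ^ M - B2 * S /ₘ X ^ M) * X ^ M =
      B1 * S %ₘ X ^ M %ₘ X ^ a - B2 * S %ₘ X ^ M %ₘ X ^ a := by
    rw [h4] at e3
    linear_combination -e1 + e2 - e3 + e4
  rw [e]
  exact sub_mem_Lt (mod_mem_Lt _ _) (mod_mem_Lt _ _)

/-- a reduced basis -/
structure RB (g : ℕ) (L B1 B2 P1 P2 : F[X]) : Prop where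
  m1 : B1.Monic
  pos : 1 ≤ B1.natDegree
  le : B1.natDegree ≤ g
  a1 : B1 * L - P1 * X ^ g ∈ Lt F B1.natDegree
  a2 : B2 * L - P2 * X ^ g ∈ Mo F (g - B1.natDegree)
  b2 : B2.natDegree ≤ g - B1.natDegree
  n2 : B2 ≠ 0
  det : P1 * B2 - P2 * B1 = 1
  p1 : P1 ∈ Lt F B1.natDegree
  p2 : P2 ∈ Lt F B2.natDegree

theorem exists_RB {g : ℕ} {L : F[X]} (hL : L ∈ Lt F g) (h0 : L ≠ 0) :
    ∃ B1 B2 P1 P2, RB g L B1 B2 P1 P2 := by
  have E1 : ∃ b, ∃ B P : F[X], B ∈ Mo F b ∧ B * L - P * X ^ g ∈ Lt F b :=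
    ⟨g, X ^ g, L, mem_Mo.2 ⟨monic_X_pow g, natDegree_X_pow g⟩, by
      rw [mul_comm, sub_self]; exact zero_mem_Lt _⟩
  have E2 : ∃ a, ∃ B P : F[X], B.natDegree ≤ a ∧ B * L - P * X ^ g ∈ Mo F a :=
    ⟨g, 0, -1, by simp, mem_Mo.2 (by simp)⟩
  obtain ⟨B1, P1, m0, a1⟩ := Nat.find_spec E1
  obtain ⟨B2, P2, b2, a2⟩ := Nat.find_spec E2
  have k1 := fun m => Nat.find_min E1 (m := m)
  have k2 := fun m => Nat.find_min E2 (m := m)
  generalize Nat.find E1 = b at *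
  generalize Nat.find E2 = a at *
  obtain ⟨m1, rfl⟩ := mem_Mo.1 m0
  have pos : 1 ≤ B1.natDegree := by
    by_contra hb
    have hb' : B1.natDegree = 0 := by omega
    rw [hb', m1.natDegree_eq_zero.1 hb', one_mul, mem_Lt] at a1
    have e : L = P1 * X ^ g := sub_eq_zero.1 (degree_eq_bot.1 (by simpa using a1))
    have := of_mul_X_pow (n := 0) (p := P1) (by rw [← e, zero_add]; exact hL)
    rw [mem_Lt] at this
    exact h0 (by rw [e, (degree_eq_bot (p := P1)).1 (by simpa using this), zero_mul])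
  have hle : a + B1.natDegree ≤ g := by
    by_contra hc
    obtain ⟨B, hB, n0, P, hP⟩ := pig L (not_le.1 hc) pos
    by_cases hA : B * L - P * X ^ g ∈ Lt F B.natDegree
    · refine k1 B.natDegree ((mem_Lt' n0).1 hB) ⟨B * C B.leadingCoeff⁻¹, P * C B.leadingCoeff⁻¹,
        mem_Mo.2 ⟨monic_mul_leadingCoeff_inv n0, natDegree_mul_leadingCoeff_inv _ n0⟩, ?_⟩
      have := mul_mem_Lt (natDegree_C B.leadingCoeff⁻¹).le hA
      rwa [zero_add, show ∀ c : F[X], c * (B * L - P * X ^ g) = B * c * L - P * c * X ^ g from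
        fun c => by ring] at this
    · have nA : B * L - P * X ^ g ≠ 0 := fun z => hA (z ▸ zero_mem_Lt _)
      rw [mem_Lt' nA] at hA hP
      refine k2 _ hP ⟨B * C (B * L - P * X ^ g).leadingCoeff⁻¹,
        P * C (B * L - P * X ^ g).leadingCoeff⁻¹,
        by rw [natDegree_mul_leadingCoeff_inv _ nA]; omega, ?_⟩
      rw [show ∀ c : F[X], B * c * L - P * c * X ^ g = (B * L - P * X ^ g) * c from
        fun c => by ring]
      exact mem_Mo.2 ⟨monic_mul_leadingCoeff_inv nA, natDegree_mul_leadingCoeff_inv _ nA⟩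
  obtain ⟨m2, d2⟩ := mem_Mo.1 a2
  have e : (P1 * B2 - P2 * B1) * X ^ g ∈ Mo F (a + B1.natDegree) := by
    have h1 := mul_mem_Lt b2 a1
    have h2 : (B2 * L - P2 * X ^ g) * B1 ∈ Mo F (a + B1.natDegree) :=
      mem_Mo.2 ⟨m2.mul m1, by rw [m2.natDegree_mul m1, d2]⟩
    obtain ⟨r, hr, e⟩ := mem_image.1 h2
    exact mem_image.2 ⟨_, sub_mem_Lt hr h1, by linear_combination e⟩
  obtain ⟨m3, d3⟩ := mem_Mo.1 e
  have m4 := (monic_X_pow g).of_mul_monic_right m3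
  rw [natDegree_mul_X_pow _ m4.ne_zero] at d3
  have det := m4.natDegree_eq_zero.1 (by omega)
  obtain rfl : a = g - B1.natDegree := by omega
  refine ⟨B1, B2, P1, P2, m1, pos, by omega, a1, a2, b2, fun z => ?_, det,
    of_mul_X_pow (m := g) ?_, of_mul_X_pow (m := g) ?_⟩
  · have := natDegree_eq_zero_of_isUnit (IsUnit.of_mul_eq_one (a := B1) (-P2)
      (by rw [z] at det; linear_combination det))
    omega
  · have := sub_mem_Lt (mul_mem_Lt le_rfl hL) (Lt_mono (Nat.le_add_right _ g) a1)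
    rwa [sub_sub_cancel] at this
  · have := sub_mem_Lt (mul_mem_Lt (p := B2) le_rfl hL)
      ((mem_Lt' m2.ne_zero).2 (show _ < B2.natDegree + g by omega))
    rwa [sub_sub_cancel] at this

namespace RB
variable {g : ℕ} {L L' B1 B2 P1 P2 B2' P1' P2' : F[X]}

theorem cop (h : RB g L B1 B2 P1 P2) : IsCoprime B1 B2 := ⟨-P2, P1, by linear_combination h.det⟩

theorem eq1 (h : RB g L B1 B2 P1 P2) (h' : RB g L' B1 B2' P1 P2') : L = L' := by
  have := sub_mem_Lt h.a1 h'.a1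
  rw [sub_sub_sub_cancel_right, ← mul_sub] at this
  exact sub_eq_zero.1 ((mul_eq_zero.1 (eq_zero_of_dvd (dvd_mul_right _ _) this)).resolve_left
    h.m1.ne_zero)

theorem eq2 (h : RB g L B1 B2 P1 P2) (h' : RB g L' B1 B2 P1' P2') : L = L' := by
  have h1 : B1 ∣ (P1 - P1') * B2 := ⟨P2 - P2', by linear_combination h.det - h'.det⟩
  obtain rfl := sub_eq_zero.1 (eq_zero_of_dvd (h.cop.dvd_of_dvd_mul_right h1)
    (sub_mem_Lt h.p1 h'.p1))
  exact h.eq1 h'

theorem ker [CharP F 5] (h : RB g L B1 B2 P1 P2) {R V U : F[X]} {ρ u : ℕ} (hR : R.natDegree ≤ ρ)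
    (hU : U.natDegree ≤ u) (h1 : u ≤ ρ) (h2 : ρ ≤ u + 5) (e : L ^ 5 * R = V * X ^ (5 * g) + U) :
    ∃ s1 s2 : F[X], R = s1 * B1 ^ 5 + s2 * B2 ^ 5 ∧
      (s1 ≠ 0 → s1.natDegree + 5 * B1.natDegree ≤ ρ) ∧
      (s2 ≠ 0 → s2.natDegree + 5 * (g - B1.natDegree) ≤ u) := by
  have : Fact (Nat.Prime 5) := ⟨by norm_num⟩
  have f : ∀ a b : F[X], (a - b) ^ 5 = a ^ 5 - b ^ 5 := fun a b => sub_pow_char a b
  have d := congrArg (· ^ 5) h.det
  simp only [f, one_pow] at d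
  have l := h.le
  have p := h.pos
  have n5 : ∀ a b : F[X], (a * b ^ 5).natDegree ≤ a.natDegree + 5 * b.natDegree := fun a b =>
    natDegree_mul_le.trans (add_le_add_right natDegree_pow_le _)
  refine ⟨V * B2 ^ 5 - R * P2 ^ 5, R * P1 ^ 5 - V * B1 ^ 5, by linear_combination -R * d,
    fun n => ?_, fun n => ?_⟩
  · have e1 : (V * B2 ^ 5 - R * P2 ^ 5) * X ^ (5 * g) =
        R * (B2 * L - P2 * X ^ g) ^ 5 - U * B2 ^ 5 := by
      rw [f]; linear_combination -B2 ^ 5 * e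
    have e2 := congrArg natDegree e1
    rw [natDegree_mul_X_pow _ n] at e2
    have a := n5 R (B2 * L - P2 * X ^ g)
    have b := n5 U B2
    have c := natDegree_sub_le (R * (B2 * L - P2 * X ^ g) ^ 5) (U * B2 ^ 5)
    have c1 := (mem_Mo.1 h.a2).2
    have c2 := h.b2
    omega
  · have e1 : (R * P1 ^ 5 - V * B1 ^ 5) * X ^ (5 * g) =
        U * B1 ^ 5 - R * (B1 * L - P1 * X ^ g) ^ 5 := by
      rw [f]; linear_combination B1 ^ 5 * e
    have e2 := congrArg natDegree e1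
    rw [natDegree_mul_X_pow _ n] at e2
    have a := n5 R (B1 * L - P1 * X ^ g)
    have b := n5 U B1
    have c := natDegree_sub_le (U * B1 ^ 5) (R * (B1 * L - P1 * X ^ g) ^ 5)
    have c1 : (B1 * L - P1 * X ^ g).natDegree ≤ B1.natDegree - 1 :=
      mem_Lt_succ.1 (by rw [Nat.sub_add_cancel p]; exact h.a1)
    omega

end RB

end Pool.Agent.P.MP_16b5eb_nt.F5
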