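import Pool.Agent.P.MP_16b5eb_nt.F5.Sums
import Pool.Agent.P.MP_16b5eb_nt.F5.RB

/-! The radical of the quadratic forms and its three parts. -/

set_option autoImplicit false
set_option linter.unusedSectionVars false

namespace Pool.Agent.P.MP_16b5eb_nt.F5

open Polynomial Finset
open scoped Classical

variable {F : Type} [Field F] [Fintype F]

/-- the radical -/
noncomputable def Ker (g : ℕ) (G L : F[X]) : Finset F[X] := {k ∈ Lt F (2 * g + 2) |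
  ∃ V U : F[X], U.natDegree ≤ 3 * g - 3 ∧ L ^ 5 * (G * k) = V * X ^ (5 * g) + U}

/-- the degree class -/
noncomputable def ga (g : ℕ) (G : F[X]) : ℕ := if G.natDegree = g then g else g - 1

/-- first part -/
noncomputable def KB (g : ℕ) (G B : F[X]) : Finset F[X] :=
  {k ∈ Lt F (2 * g + 2) | k ≠ 0 ∧ B ^ 5 ∣ G * k}

/-- second part -/
noncomputable def KA (g a : ℕ) (G B : F[X]) : Finset F[X] :=
  {s ∈ Lt F (3 * g) | s ≠ 0 ∧ s.natDegree + 5 * a + 3 ≤ 3 * g ∧ G ∣ B ^ 5 * s}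

/-- the box of coefficients -/
noncomputable def SB (g b : ℕ) (G : F[X]) : Finset (F[X] × F[X]) :=
  {s ∈ Lt F (3 * g + 2) ×ˢ Lt F (3 * g + 2) | s.1 ≠ 0 ∧ s.2 ≠ 0 ∧
    s.1.natDegree + 5 * b ≤ 2 * g + 1 + ga g G ∧ s.2.natDegree + 5 * (g - b) + 3 ≤ 3 * g}

/-- third part -/
noncomputable def KC (g : ℕ) (G B1 B2 : F[X]) : Finset (F[X] × F[X]) :=
  {s ∈ SB g B1.natDegree G | G ∣ s.1 * B1 ^ 5 + s.2 * B2 ^ 5}

theorem ga_le (g : ℕ) (G : F[X]) : ga g G ≤ g ∧ g ≤ ga g G + 1 := by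
  unfold ga; split_ifs <;> omega

theorem le_ga {g : ℕ} {G : F[X]} (h : G.natDegree ≤ g) : G.natDegree ≤ ga g G := by
  unfold ga; split_ifs <;> omega

theorem ker_le [CharP F 5] {g : ℕ} (hg : 1 ≤ g) {G L B1 B2 P1 P2 : F[X]} (hG : G ∈ GG F g)
    (h : RB g L B1 B2 P1 P2) : #(Ker g G L) ≤
      1 + #(KB g G B1) + #(KA g (g - B1.natDegree) G B2) + #(KC g G B1 B2) := by
  obtain ⟨g1, g2, -⟩ := mem_GG.1 hG
  have a1 := ga_le g G
  have a2 := le_ga g1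
  have : Ker g G L ⊆ {0} ∪ KB g G B1 ∪ (KA g (g - B1.natDegree) G B2).image
      (fun s => s * B2 ^ 5 / G) ∪
      (KC g G B1 B2).image fun s => (s.1 * B1 ^ 5 + s.2 * B2 ^ 5) / G := by
    intro k hk
    obtain ⟨k1, V, U, k2, k3⟩ := mem_filter.1 hk
    simp only [mem_union, mem_singleton, mem_image]
    by_cases k0 : k = 0
    · exact Or.inl (Or.inl (Or.inl k0))
    have k4 := (mem_Lt' k0).1 k1
    obtain ⟨s1, s2, e, d1, d2⟩ := h.ker (ρ := 2 * g + 1 + ga g G)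
      (natDegree_mul_le.trans (by omega)) k2 (by omega) (by omega) k3
    by_cases z2 : s2 = 0
    · exact Or.inl (Or.inl (Or.inr (mem_filter.2 ⟨k1, k0, s1, by rw [e, z2]; ring⟩)))
    have d3 := d2 z2
    by_cases z1 : s1 = 0
    · rw [z1, zero_mul, zero_add] at e
      exact Or.inl (Or.inr ⟨s2, mem_filter.2 ⟨(mem_Lt' z2).2 (by omega), z2, by omega,
        k, by rw [e, mul_comm]⟩, by rw [← e, mul_div_cancel_left₀ _ g2]⟩)
    have d4 := d1 z1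
    exact Or.inr ⟨(s1, s2), mem_filter.2 ⟨mem_filter.2 ⟨mem_product.2
      ⟨(mem_Lt' z1).2 (by omega), (mem_Lt' z2).2 (by omega)⟩, z1, z2, d4, by simp only; omega⟩,
        k, e.symm⟩, by simp only; rw [← e, mul_div_cancel_left₀ _ g2]⟩
  refine (card_le_card this).trans ((card_union_le _ _).trans (add_le_add ((card_union_le _ _).trans
    (add_le_add ((card_union_le _ _).trans (by simp)) card_image_le)) card_image_le))

theorem dvd_red {a : F[X]} (ha : a ≠ 0) (b : F[X]) :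
    ∃ c, c ≠ 0 ∧ a = gcd a b * c ∧ (gcd a b).Monic ∧ ∀ x, a ∣ b * x → c ∣ x := by
  have h0 : gcd a b ≠ 0 := fun z => ha ((gcd_eq_zero_iff _ _).1 z).1
  obtain ⟨c, h1⟩ := gcd_dvd_left a b
  obtain ⟨u, v, h2⟩ := exists_gcd_eq_mul_add_mul a b
  refine ⟨c, fun z => ha (by rw [h1, z, mul_zero]), h1,
    by rw [← _root_.normalize_gcd]; exact monic_normalize h0, fun x hx => ?_⟩
  have : a ∣ gcd a b * x := by
    rw [h2, add_mul, mul_assoc, mul_right_comm b]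
    exact dvd_add (dvd_mul_right _ _) (hx.mul_right _)
  exact (mul_dvd_mul_iff_left h0).1 (h1 ▸ this)

theorem sqrt_le {x : ℝ} {a b : ℕ} (h : x * rr F ^ (2 * a) ≤ rr F ^ (2 * b)) :
    √x ≤ rr F ^ b * (rr F)⁻¹ ^ a := by
  have r0 := rr_pos (F := F)
  refine Real.sqrt_le_iff.2 ⟨by positivity, ?_⟩
  rw [inv_pow, ← div_eq_mul_inv, div_pow, le_div_iff₀ (by positivity), ← pow_mul, ← pow_mul,
    mul_comm a, mul_comm b]
  exact h

theorem KB_le (g : ℕ) (G : F[X]) {B : F[X]} (hB : B ≠ 0) : √(#(KB g G B) : ℝ) ≤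
    rr F ^ (2 * g + 2 + (gcd G (B ^ 5)).natDegree) * (rr F)⁻¹ ^ (5 * B.natDegree) := by
  obtain ⟨c, c0, e, m, h⟩ := dvd_red (pow_ne_zero 5 hB) G
  have h1 := mult_Lt c0 (2 * g + 2) (KB g G B) fun k hk =>
    ⟨(mem_filter.1 hk).1, (mem_filter.1 hk).2.1, h k (mem_filter.1 hk).2.2⟩
  have h2 := congrArg natDegree e
  rw [natDegree_pow, natDegree_mul m.ne_zero c0, gcd_comm] at h2
  refine sqrt_le ?_
  rw [h2, mul_add, pow_add, mul_add 2 (2 * g + 2), pow_add, mul_comm (rr F ^ _), ← mul_assoc]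
  exact mul_le_mul_of_nonneg_right h1 (pow_pos rr_pos _).le

theorem KA_le (g a : ℕ) {G : F[X]} (hG : G ≠ 0) (B : F[X]) : √(#(KA g a G B) : ℝ) ≤
    rr F ^ (3 * g + (gcd G (B ^ 5)).natDegree) * (rr F)⁻¹ ^ (G.natDegree + 5 * a + 2) := by
  refine sqrt_le ?_
  rcases (KA g a G B).eq_empty_or_nonempty with z | ⟨s, hs⟩
  · simp [z, rr_pos.le]
  have h0 := (mem_filter.1 hs).2.2.1
  obtain ⟨c, c0, e, m, h⟩ := dvd_red hG (B ^ 5)
  have h1 := mult_Lt c0 (3 * g - 2 - 5 * a) (KA g a G B) fun k hk => by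
    obtain ⟨-, k1, k2, k3⟩ := mem_filter.1 hk
    exact ⟨(mem_Lt' k1).2 (by omega), k1, h k k3⟩
  have h2 := congrArg natDegree e
  rw [natDegree_mul m.ne_zero c0] at h2
  have h3 := mul_le_mul_of_nonneg_right h1
    (pow_pos (rr_pos (F := F)) (2 * ((gcd G (B ^ 5)).natDegree + 5 * a + 2))).le
  rw [mul_assoc, ← pow_add, ← pow_add] at h3
  rwa [show 2 * (G.natDegree + 5 * a + 2) =
      2 * c.natDegree + 2 * ((gcd G (B ^ 5)).natDegree + 5 * a + 2) by omega,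
    show 2 * (3 * g + (gcd G (B ^ 5)).natDegree) =
      2 * (3 * g - 2 - 5 * a) + 2 * ((gcd G (B ^ 5)).natDegree + 5 * a + 2) by omega]

theorem box_le {g b : ℕ} (hb : b ≤ g) (G : F[X]) {d : F[X]} (hd : d ≠ 0) :
    (#{s ∈ SB g b G | d ∣ s.1 ∧ d ∣ s.2} : ℝ) * rr F ^ (4 * d.natDegree) ≤ rr F ^ (2 * ga g G) := by
  have r0 := rr_pos (F := F)
  rcases ({s ∈ SB g b G | d ∣ s.1 ∧ d ∣ s.2} : Finset _).eq_empty_or_nonempty with z | ⟨s, hs⟩
  · simp [z, rr_pos.le]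
  obtain ⟨-, -, -, s1, s2⟩ := mem_filter.1 (mem_filter.1 hs).1
  have h := fun n => mult_Lt hd n {a ∈ Lt F n | a ≠ 0 ∧ d ∣ a} fun a ha => mem_filter.1 ha
  have h1 := mul_le_mul (h (2 * g + 2 + ga g G - 5 * b)) (h (3 * g - 2 - 5 * (g - b)))
    (by positivity) (by positivity)
  rw [mul_mul_mul_comm, ← pow_add, ← pow_add, ← Nat.cast_mul, ← card_product,
    show 2 * d.natDegree + 2 * d.natDegree = 4 * d.natDegree by ring,
    show 2 * (2 * g + 2 + ga g G - 5 * b) + 2 * (3 * g - 2 - 5 * (g - b)) = 2 * ga g G by omega]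
    at h1
  refine le_trans (mul_le_mul_of_nonneg_right (Nat.cast_le.2 (card_le_card fun x hx => ?_))
    (by positivity)) h1
  obtain ⟨x1, x2, x3⟩ := mem_filter.1 hx
  obtain ⟨-, y1, y2, y3, y4⟩ := mem_filter.1 x1
  exact mem_product.2 ⟨mem_filter.2 ⟨(mem_Lt' y1).2 (by omega), y1, x2⟩,
    mem_filter.2 ⟨(mem_Lt' y2).2 (by omega), y2, x3⟩⟩

theorem sum_fib {α β : Type} [DecidableEq β] (S : Finset α) (T : Finset β) (f : α → β) (φ : β → ℝ) {c : ℝ}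
    (h0 : ∀ y, 0 ≤ φ y) (h1 : ∀ x ∈ S, f x ∈ T) (h2 : ∀ y ∈ T, (#{x ∈ S | f x = y} : ℝ) ≤ c) :
    ∑ x ∈ S, φ (f x) ≤ c * ∑ y ∈ T, φ y := by
  rw [← sum_fiberwise_of_maps_to h1, mul_sum]
  refine sum_le_sum fun y hy => ?_
  rw [sum_congr rfl fun x hx => by rw [(mem_filter.1 hx).2], sum_const, nsmul_eq_mul]
  exact mul_le_mul_of_nonneg_right (h2 y hy) (h0 y)

section typ
variable {g b : ℕ} {S : Finset F[X]} {b1 b2 p1 p2 : F[X] → F[X]}
  (hS : ∀ L ∈ S, RB g L (b1 L) (b2 L) (p1 L) (p2 L) ∧ (b1 L).natDegree = b)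
include hS

theorem fib1 (B : F[X]) : (#{L ∈ S | b1 L = B} : ℝ) ≤ rr F ^ (2 * b) := by
  rw [← q_pow, ← Nat.cast_pow, ← card_Lt, Nat.cast_le]
  refine card_le_card_of_injOn p1 (fun L hL => ?_) fun L hL L' hL' e => ?_
  · obtain ⟨h1, h2⟩ := hS L (mem_filter.1 hL).1
    exact h2 ▸ h1.p1
  · obtain ⟨x1, x2⟩ := mem_filter.1 hL
    obtain ⟨y1, y2⟩ := mem_filter.1 hL'
    exact (hS L x1).1.eq1 (by rw [x2, ← y2, e]; exact (hS L' y1).1)

theorem fib2 (B : F[X]) : (#{L ∈ S | b2 L = B} : ℝ) ≤ rr F ^ (2 * (g - b)) := by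
  have r0 := rr_pos (F := F)
  rcases ({L ∈ S | b2 L = B} : Finset _).eq_empty_or_nonempty with z | ⟨L0, h0⟩
  · simp [z, rr_pos.le]
  obtain ⟨z1, z2⟩ := mem_filter.1 h0
  have n : B ≠ 0 := z2 ▸ (hS L0 z1).1.n2
  have d : B.natDegree ≤ g - b := z2 ▸ (hS L0 z1).2 ▸ (hS L0 z1).1.b2
  have := sum_fib {L ∈ S | b2 L = B} (Lt F B.natDegree) p2 (fun _ => 1)
    (c := rr F ^ (2 * (g - b)) / rr F ^ (2 * B.natDegree)) (fun _ => zero_le_one)
    (fun L hL => (mem_filter.1 hL).2 ▸ (hS L (mem_filter.1 hL).1).1.p2) fun P _ => by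
      rw [le_div_iff₀ (by positivity), ← card_image_of_injective _ (mul_right_injective₀ n)]
      refine mult n d _ (fun x hx y hy => ?_) fun x hx y hy => ?_
      all_goals
        obtain ⟨L, hL, rfl⟩ := mem_image.1 hx
        obtain ⟨L', hL', rfl⟩ := mem_image.1 hy
      · obtain ⟨x1, x2⟩ := mem_filter.1 hL
        obtain ⟨y1, y2⟩ := mem_filter.1 hL'
        obtain ⟨x3, x4⟩ := mem_filter.1 x1
        obtain ⟨y3, y4⟩ := mem_filter.1 y1
        have u := (hS L x3).1.a2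
        have v := (hS L' y3).1.a2
        rw [(hS L x3).2, x2, x4] at u
        rw [(hS L' y3).2, y2, y4] at v
        have := sub_of_Mo u v
        rwa [sub_sub_sub_cancel_right] at this
      · exact dvd_sub (dvd_mul_right _ _) (dvd_mul_right _ _)
  rwa [sum_const, sum_const, card_Lt, nsmul_one, nsmul_one, Nat.cast_pow, q_pow,
    div_mul_cancel₀ _ (by positivity)] at this

theorem b1_mem {L : F[X]} (hL : L ∈ S) : b1 L ∈ Mo F b := mem_Mo.2 ⟨(hS L hL).1.m1, (hS L hL).2⟩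

theorem b2_mem {L : F[X]} (hL : L ∈ S) : b2 L ∈ (Lt F (g - b + 1)).erase 0 :=
  mem_erase.2 ⟨(hS L hL).1.n2, mem_Lt_succ.2 ((hS L hL).2 ▸ (hS L hL).1.b2)⟩

theorem card_typ : √(#S : ℝ) ≤ rr F ^ min (2 * b) (2 * (g - b) + 1) := by
  have r0 := rr_pos (F := F)
  have h1 := sum_fib S _ b1 (fun _ => 1) (fun _ => zero_le_one) (fun L => b1_mem hS)
    fun B _ => fib1 hS B
  have h2 := sum_fib S _ b2 (fun _ => 1) (fun _ => zero_le_one)
    (fun L hL => (mem_erase.1 (b2_mem hS hL)).2) fun B _ => fib2 hS B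
  rw [sum_const, sum_const, nsmul_one, nsmul_one] at h1 h2
  rw [card_Mo, Nat.cast_pow, q_pow, ← pow_add] at h1
  rw [card_Lt, Nat.cast_pow, q_pow, ← pow_add] at h2
  refine Real.sqrt_le_iff.2 ⟨by positivity, ?_⟩
  rw [← pow_mul]
  rcases le_total (2 * b) (2 * (g - b) + 1) with h | h
  · rw [min_eq_left h]; exact h1.trans_eq (by ring)
  · rw [min_eq_right h]; exact h2.trans_eq (by ring)

theorem cnt [CharP F 5] {G : F[X]} (hG : G ∈ GG F g) (s1 s2 : F[X]) : ∃ d ∈ Mle F g,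
    d ∣ s1 ∧ d ∣ s2 ∧ (#{L ∈ S | G ∣ s1 * b1 L ^ 5 + s2 * b2 L ^ 5} : ℝ) ≤
      ∑ t ∈ Tu F g with d * Kt t * Nt t ∣ G,
        rr F ^ (2 * (g + 1 + d.natDegree + (Kt t).natDegree)) / rr F ^ (2 * G.natDegree) := by
  have r0 := rr_pos (F := F)
  have : Fact (Nat.Prime 5) := ⟨by norm_num⟩
  obtain ⟨g1, g2, -⟩ := mem_GG.1 hG
  obtain ⟨c, c0, e, m, h⟩ := dvd_red g2 (gcd s1 s2)
  refine ⟨_, mem_Mle.2 ⟨m, (natDegree_le_of_dvd (gcd_dvd_left _ _) g2).trans g1⟩,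
    (gcd_dvd_right _ _).trans (gcd_dvd_left _ _), (gcd_dvd_right _ _).trans (gcd_dvd_right _ _), ?_⟩
  generalize gcd G (gcd s1 s2) = d at *
  set T := {L ∈ S | G ∣ s1 * b1 L ^ 5 + s2 * b2 L ^ 5}
  rcases T.eq_empty_or_nonempty with z | ⟨L0, h0⟩
  · rw [z, card_empty, Nat.cast_zero]; positivity
  obtain ⟨z1, z2⟩ := mem_filter.1 h0
  let Δ : F[X] → F[X] := fun L => b1 L * b2 L0 - b1 L0 * b2 L
  have cov : T ⊆ ({t ∈ Tu F g | d * Kt t * Nt t ∣ G} : Finset _).biUnion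
      fun t => {L ∈ S | c / Kt t ∣ Δ L} := by
    intro L hL
    obtain ⟨x1, x2⟩ := mem_filter.1 hL
    have e5 : Δ L ^ 5 = (b1 L * b2 L0) ^ 5 - (b1 L0 * b2 L) ^ 5 := sub_pow_char _ _
    have d1 : G ∣ s1 * Δ L ^ 5 := by
      rw [e5, show s1 * ((b1 L * b2 L0) ^ 5 - (b1 L0 * b2 L) ^ 5) =
        (s1 * b1 L ^ 5 + s2 * b2 L ^ 5) * b2 L0 ^ 5 -
          (s1 * b1 L0 ^ 5 + s2 * b2 L0 ^ 5) * b2 L ^ 5 by ring]
      exact dvd_sub (x2.mul_right _) (z2.mul_right _)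
    have d2 : G ∣ s2 * Δ L ^ 5 := by
      rw [e5, show s2 * ((b1 L * b2 L0) ^ 5 - (b1 L0 * b2 L) ^ 5) =
        (s1 * b1 L0 ^ 5 + s2 * b2 L0 ^ 5) * b1 L ^ 5 -
          (s1 * b1 L ^ 5 + s2 * b2 L ^ 5) * b1 L0 ^ 5 by ring]
      exact dvd_sub (z2.mul_right _) (x2.mul_right _)
    obtain ⟨u, v, huv⟩ := exists_gcd_eq_mul_add_mul s1 s2
    obtain ⟨E, t, mt, e1, ⟨f, e2⟩, e3⟩ := fac c0 (h (Δ L ^ 5) (by
      rw [huv, add_mul, mul_right_comm s1, mul_right_comm s2]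
      exact dvd_add (d1.mul_right _) (d2.mul_right _)))
    have dv : d * Kt t * Nt t ∣ G := ⟨f, by rw [e, e1, e2]; ring⟩
    refine mem_biUnion.2 ⟨t, mem_filter.2 ⟨mem_Tu.2 fun i => mem_Mle.2 ⟨mt i,
      (natDegree_le_of_dvd (((dvd_Nt t i).mul_left _).trans dv) g2).trans g1⟩, dv⟩,
      mem_filter.2 ⟨x1, ?_⟩⟩
    rwa [e1, mul_div_cancel_right₀ _ (Kt_monic mt).ne_zero]
  refine (Nat.cast_le.2 ((card_le_card cov).trans card_biUnion_le)).trans ?_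
  rw [Nat.cast_sum]
  refine sum_le_sum fun t ht => ?_
  obtain ⟨t1, f, t2⟩ := mem_filter.1 ht
  have mk := Kt_monic fun i => (mem_Mle.1 (mem_Tu.1 t1 i)).1
  have e1 : c = Kt t * (Nt t * f) := mul_left_cancel₀ m.ne_zero (by rw [← e, t2]; ring)
  have n1 : Nt t * f ≠ 0 := right_ne_zero_of_mul (e1 ▸ c0)
  have e2 : G.natDegree = d.natDegree + ((Kt t).natDegree + (Nt t * f).natDegree) := by
    rw [e, natDegree_mul m.ne_zero c0, e1, natDegree_mul mk.ne_zero n1]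
  rw [e1, mul_div_cancel_left₀ _ mk.ne_zero, le_div_iff₀ (by positivity)]
  have inj : Set.InjOn Δ ({L ∈ S | Nt t * f ∣ Δ L} : Finset _) := fun L hL L' hL' e => by
    have x1 := (mem_filter.1 hL).1
    have y1 := (mem_filter.1 hL').1
    have e3 : (b1 L - b1 L') * b2 L0 = b1 L0 * (b2 L - b2 L') := by
      simp only [Δ] at e; linear_combination e
    have e4 := eq_zero_of_dvd ((hS L0 z1).1.cop.dvd_of_dvd_mul_right ⟨_, e3⟩)
      ((hS L0 z1).2 ▸ sub_of_Mo (b1_mem hS x1) (b1_mem hS y1))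
    rw [e4, zero_mul] at e3
    have e5 := (mul_eq_zero.1 e3.symm).resolve_left (hS L0 z1).1.m1.ne_zero
    exact (hS L x1).1.eq2 (by rw [sub_eq_zero.1 e4, sub_eq_zero.1 e5]; exact (hS L' y1).1)
  have dg : ∀ L ∈ S, Δ L ∈ Lt F (g + 1) := fun L hL => by
    have a := fun L hL L' hL' => mul_mem_Lt (hS L hL).2.le (mem_erase.1 (b2_mem hS (L := L') hL')).2
    have l := (hS L hL).2 ▸ (hS L hL).1.le
    exact Lt_mono (by omega) (sub_mem_Lt (a L hL L0 z1) (a L0 z1 L hL))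
  have h3 := mult n1 (n := g + 1) (by omega) (({L ∈ S | Nt t * f ∣ Δ L} : Finset _).image Δ)
    (fun x hx y hy => by
      obtain ⟨L, hL, rfl⟩ := mem_image.1 hx
      obtain ⟨L', hL', rfl⟩ := mem_image.1 hy
      exact sub_mem_Lt (dg L (mem_filter.1 hL).1) (dg L' (mem_filter.1 hL').1))
    fun x hx y hy => by
      obtain ⟨L, hL, rfl⟩ := mem_image.1 hx
      obtain ⟨L', hL', rfl⟩ := mem_image.1 hy
      exact dvd_sub (mem_filter.1 hL).2 (mem_filter.1 hL').2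
  rw [card_image_of_injOn inj] at h3
  have h4 := mul_le_mul_of_nonneg_right h3
    (pow_pos r0 (2 * (d.natDegree + (Kt t).natDegree))).le
  rw [mul_assoc, ← pow_add, ← pow_add] at h4
  rw [e2]
  exact (le_of_eq (by congr 2; ring)).trans (h4.trans_eq (by congr 1; ring))

end typ

end Pool.Agent.P.MP_16b5eb_nt.F5
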