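import Pool.Agent.P.MP_16b5eb_nt.F5.Arith

/-! A non-constant unit and lower bounds for the number of logarithmic derivatives. -/

set_option autoImplicit false
set_option linter.unusedSectionVars false

namespace Pool.Agent.P.MP_16b5eb_nt.F5

open Polynomial Finset QuadraticAlgebra
open scoped Classical

variable {F : Type} [Field F] [Fintype F] [CharP F 5] {D : F[X]}

theorem exists_sqrt {k : ℕ} {P : F[X]} (hP : P ∈ Mo F (2 * k)) (j : ℕ) (hj : j ≤ k) :
    ∃ S ∈ Mo F k, S ^ 2 - P ∈ Lt F (2 * k - j) := by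
  induction j with
  | zero => exact ⟨X ^ k, mem_Mo.2 (by simp), sub_of_Mo (mem_Mo.2 (by simp [← pow_mul, mul_comm])) hP⟩
  | succ j ih =>
    obtain ⟨S, hS, h⟩ := ih (by omega)
    obtain ⟨m, d⟩ := mem_Mo.1 hS
    have e := modByMonic_add_div (S ^ 2 - P) S
    have h1 : (S ^ 2 - P) %ₘ S ∈ Lt F k := by
      have := degree_modByMonic_lt (S ^ 2 - P) m
      rw [degree_eq_natDegree m.ne_zero, d] at this
      exact mem_Lt.2 this
    generalize (S ^ 2 - P) %ₘ S = r at e h1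
    generalize (S ^ 2 - P) /ₘ S = Q at e
    have h2 : Q ∈ Lt F (k - j) := mem_Lt_of fun z => by
      have := sub_mem_Lt h (Lt_mono (by omega) h1)
      rw [← e, add_sub_cancel_left, mem_Lt' (mul_ne_zero m.ne_zero z),
        natDegree_mul m.ne_zero z] at this
      omega
    have h3 : (2 * Q).degree < S.degree := by
      rw [degree_eq_natDegree m.ne_zero, d, two_mul]
      exact mem_Lt.1 (Lt_mono (by omega) (add_mem_Lt h2 h2))
    refine ⟨S + 2 * Q, mem_Mo.2 ⟨m.add_of_left h3, by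
      rw [natDegree_add_eq_left_of_degree_lt h3, d]⟩, ?_⟩
    rw [show (S + 2 * Q) ^ 2 - P = r - Q ^ 2 by
      linear_combination -e + (S * Q + Q ^ 2) * five' (F := F)]
    refine sub_mem_Lt (Lt_mono (by omega) h1) (mem_Lt_of fun z => ?_)
    have := (mem_Lt' fun z' => z (by rw [z']; ring)).1 h2
    rw [natDegree_pow]
    omega

theorem small_norm {g : ℕ} (hD : D ∈ Mo F (2 * g + 2)) (hn : NoRoot D 0) (m : ℕ) :
    ∃ u : QuadraticAlgebra F[X] D 0, u ≠ 0 ∧ (QuadraticAlgebra.norm u).natDegree ≤ g ∧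
      m ≤ u.im.natDegree + g := by
  obtain ⟨md, d⟩ := mem_Mo.1 hD
  obtain ⟨S, hS, h⟩ := exists_sqrt (k := g + 1 + 2 * m) (P := D * X ^ (4 * m))
    (mem_Mo.2 ⟨md.mul (monic_X_pow _), by rw [natDegree_mul_X_pow _ md.ne_zero]; omega⟩) _ le_rfl
  obtain ⟨B, hB, h0, A, hA⟩ := pig S (M := 2 * m) (a := m) (b := m + 1) (by omega) (by omega)
  have hu : (⟨A, B⟩ : QuadraticAlgebra F[X] D 0) ≠ 0 := fun z => h0 (congrArg QuadraticAlgebra.im z)
  have hN := norm_ne_zero hn hu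
  rw [mem_Lt_succ] at hB
  have e : QuadraticAlgebra.norm (⟨A, B⟩ : QuadraticAlgebra F[X] D 0) * X ^ (4 * m) =
      B ^ 2 * (S ^ 2 - D * X ^ (4 * m)) +
        (B * S - A * X ^ (2 * m) - B * S - B * S) * (B * S - A * X ^ (2 * m)) := by
    rw [norm_mk]; ring
  generalize B * S - A * X ^ (2 * m) = E at e hA
  have h1 : (B * S).natDegree ≤ B.natDegree + (g + 1 + 2 * m) :=
    natDegree_mul_le.trans (by rw [(mem_Mo.1 hS).2])
  have h2 : E.natDegree ≤ B.natDegree + (g + 1 + 2 * m) := mem_Lt_succ.1 (Lt_mono (by omega) hA)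
  have h3 := mul_mem_Lt ((natDegree_sub_le _ _).trans (max_le
    ((natDegree_sub_le _ _).trans (max_le h2 h1)) h1)) hA
  have h4 := mul_mem_Lt (natDegree_pow_le (p := B) (n := 2)) h
  have h5 := add_mem_Lt (Lt_mono (by omega) h4) h3
  rw [← e, mem_Lt' (mul_ne_zero hN (pow_ne_zero _ X_ne_zero)), natDegree_mul_X_pow _ hN] at h5
  exact ⟨_, hu, by omega, by dsimp only; omega⟩

theorem mod_Lt {N : F[X]} (hN : N ≠ 0) {g : ℕ} (h : N.natDegree ≤ g) (A : F[X]) :
    A % N ∈ Lt F (g + 1) :=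
  mem_Lt.2 ((degree_mod_lt A hN).trans_le (degree_le_natDegree.trans (by exact_mod_cast by omega)))

theorem unit_of {v w : QuadraticAlgebra F[X] D 0} {N : F[X]} (hN : N ≠ 0)
    (e0 : QuadraticAlgebra.norm w = N) (e1 : QuadraticAlgebra.norm v = N) (e2 : v.re % N = w.re % N)
    (e3 : v.im % N = w.im % N) (hne : v.im.natDegree ≠ w.im.natDegree) :
    ∃ e : QuadraticAlgebra F[X] D 0, IsUnit e ∧ e.im ≠ 0 := by
  obtain ⟨z, hz⟩ : ∃ z, v = w + algebraMap F[X] _ N * z :=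
    ⟨⟨v.re / N - w.re / N, v.im / N - w.im / N⟩, QuadraticAlgebra.ext
      (by simp only [re_add, re_mul, algebraMap_re, algebraMap_im]
          linear_combination EuclideanDomain.mod_add_div w.re N -
            EuclideanDomain.mod_add_div v.re N + e2)
      (by simp only [im_add, im_mul, algebraMap_re, algebraMap_im]
          linear_combination EuclideanDomain.mod_add_div w.im N -
            EuclideanDomain.mod_add_div v.im N + e3)⟩
  have h4 : v = (1 + star w * z) * w := by rw [hz, ← e0, algebraMap_norm_eq_mul_star]; ring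
  generalize 1 + star w * z = e at h4
  have h5 : QuadraticAlgebra.norm e = 1 :=
    mul_right_cancel₀ hN (by rw [h4, map_mul, e0] at e1; rw [e1, one_mul])
  refine ⟨e, isUnit_iff_norm_isUnit.2 (h5 ▸ isUnit_one), fun z => hne ?_⟩
  have h6 : IsUnit e.re := IsUnit.of_mul_eq_one e.re (by simpa [norm_def, z] using h5)
  have h7 : v.im = e.re * w.im := by simp [h4, z]
  exact natDegree_eq_of_degree_eq (degree_eq_degree_of_associated
    (h7 ▸ associated_unit_mul_left _ _ h6))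

theorem pell {g : ℕ} (hD : D ∈ Mo F (2 * g + 2)) (hn : NoRoot D 0) :
    ∃ e : QuadraticAlgebra F[X] D 0, IsUnit e ∧ e.im ≠ 0 := by
  obtain ⟨T, hi, hc⟩ : ∃ T : Set ℕ, T.Infinite ∧ ∀ d ∈ T, ∃ u : QuadraticAlgebra F[X] D 0,
      u ≠ 0 ∧ (QuadraticAlgebra.norm u).natDegree ≤ g ∧ u.im.natDegree = d :=
    ⟨_, Set.infinite_of_forall_exists_gt fun a => by
      obtain ⟨u, h1, h2, h3⟩ := small_norm hD hn (a + g + 1)
      exact ⟨_, ⟨u, h1, h2, rfl⟩, by omega⟩, fun _ hd => hd⟩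
  choose! u h1 h2 h3 using hc
  obtain ⟨i, hi, j, hj, hne, he⟩ := hi.exists_ne_map_eq_of_mapsTo
    (f := fun d => (QuadraticAlgebra.norm (u d), (u d).re % QuadraticAlgebra.norm (u d),
      (u d).im % QuadraticAlgebra.norm (u d)))
    (fun d hd => Set.mk_mem_prod (mem_coe.2 (mem_Lt_succ.2 (h2 d hd))) (Set.mk_mem_prod
      (mem_coe.2 (mod_Lt (norm_ne_zero hn (h1 d hd)) (h2 d hd) _))
      (mem_coe.2 (mod_Lt (norm_ne_zero hn (h1 d hd)) (h2 d hd) _))))
    ((finite_toSet _).prod ((finite_toSet _).prod (finite_toSet _)))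
  obtain ⟨e1, e2, e3⟩ := Prod.mk.inj he |>.imp_right Prod.mk.inj
  rw [e1] at e2 e3
  exact unit_of (norm_ne_zero hn (h1 j hj)) rfl e1 e2 e3 (by rwa [h3 i hi, h3 j hj])

theorem unit_DL (hs : Squarefree D) (hd : 0 < D.natDegree) (hn : NoRoot D 0)
    [IsDedekindDomain (QuadraticAlgebra F[X] D 0)] (n : ℕ) :
    ∀ e : QuadraticAlgebra F[X] D 0, IsUnit e → e.im ≠ 0 → e.im.natDegree = n →
      ∃ (e : QuadraticAlgebra F[X] D 0) (G : F[X]), IsUnit e ∧ G ≠ 0 ∧ DL e G := by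
  induction n using Nat.strong_induction_on with
  | _ n ih =>
    intro e h1 h2 h3
    obtain ⟨G, hG⟩ := exists_DL hn h1.ne_zero (I := ⊤)
      (by rw [Ideal.span_singleton_eq_top.2 h1, Ideal.top_pow])
    by_cases h0 : G = 0
    · obtain ⟨v, rfl, h4⟩ := (h0 ▸ hG).root hs
      have h5 : v.im ≠ 0 := fun z => h2 (by rw [h4, z]; ring)
      refine ih _ ?_ v (isUnit_pow_succ_iff.1 h1) h5 rfl
      rw [← h3, h4, natDegree_mul (pow_ne_zero _ hs.ne_zero) (pow_ne_zero _ h5), natDegree_pow,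
        natDegree_pow]
      omega
    · exact ⟨e, G, h1, h0, hG⟩

theorem noRoot (hs : Squarefree D) (hd : 0 < D.natDegree) : NoRoot D 0 := fun c hc => by
  have h : D = c * c := by linear_combination -hc
  have := natDegree_eq_zero_of_isUnit (hs c h.symm.dvd)
  have : (c * c).natDegree ≤ _ := natDegree_mul_le
  rw [← h] at this
  omega

theorem dvd_five {G : F[X]} (hG : G ≠ 0) {j : ℕ} (h : (j : F[X]) * G = 0) : 5 ∣ j :=
  (CharP.cast_eq_zero_iff F[X] 5 j).1 ((mul_eq_zero.1 h).resolve_right hG)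

theorem om5 {g : ℕ} (hD : D ∈ Mo F (2 * g + 2)) {e : QuadraticAlgebra F[X] D 0} {G : F[X]}
    (he : IsUnit e) (hG : G ≠ 0) (h : DL e G) : 5 ≤ #(Om g D) := by
  refine (card_range 5).ge.trans (card_le_card_of_injOn (fun j => j * G)
    (fun j _ => mem_coe.2 ((h.pow j).mem hD (he.pow j).ne_zero)) fun i hi j hj e => ?_)
  have := dvd_five hG (j := i + 4 * j) (by
    push_cast; linear_combination e + j * G * five' (F := F))
  have := mem_range.1 hi
  have := mem_range.1 hj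
  omega

theorem tors {R : Type} [CommRing R] [IsDedekindDomain R] [Finite (ClassGroup R)]
    (h : 5 ∣ Nat.card (ClassGroup R)) : ∃ (u : R) (I : Ideal R), u ≠ 0 ∧ Ideal.span {u} = I ^ 5 ∧
      ∀ (i : ℕ) (e v : R), IsUnit e → u ^ i * e = v ^ 5 → 5 ∣ i := by
  have : Fact (Nat.Prime 5) := ⟨by norm_num⟩
  obtain ⟨x, hx⟩ := exists_prime_orderOf_dvd_card' 5 h
  obtain ⟨I, rfl⟩ := ClassGroup.mk0_surjective x
  have h1 : ∀ i, ClassGroup.mk0 I ^ i = 1 ↔ (I.1 ^ i).IsPrincipal := fun i => by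
    rw [← map_pow]; exact ClassGroup.mk0_eq_one_iff (I ^ i).2
  obtain ⟨u, hu⟩ := (h1 5).1 (hx ▸ pow_orderOf_eq_one _)
  have hu' : Ideal.span {u} = I.1 ^ 5 := hu.symm
  refine ⟨u, I, fun z => nonZeroDivisors.ne_zero (I ^ 5).2 ?_, hu', fun i e v he hv => ?_⟩
  · exact hu.trans (Ideal.span_singleton_eq_bot.2 z)
  · refine hx ▸ orderOf_dvd_of_pow_eq_one ((h1 i).2 ⟨v, pow_left_injective (n := 5) (by norm_num) ?_⟩)
    change (I.1 ^ i) ^ 5 = Ideal.span {v} ^ 5
    rw [pow_right_comm, ← hu', Ideal.span_singleton_pow, Ideal.span_singleton_pow, ← hv,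
      Ideal.span_singleton_mul_right_unit he]

theorem om25 {g : ℕ} (hD : D ∈ Mo F (2 * g + 2)) (hs : Squarefree D) (hn : NoRoot D 0)
    [IsDedekindDomain (QuadraticAlgebra F[X] D 0)] {e : QuadraticAlgebra F[X] D 0} {G : F[X]}
    (he : IsUnit e) (hG : G ≠ 0) (h : DL e G)
    (h5 : 5 ∣ Nat.card (ClassGroup (QuadraticAlgebra F[X] D 0))) : 25 ≤ #(Om g D) := by
  have := ClassGroup.fintypeOfAdmissibleOfAlgebraic (QuadraticAlgebra.basis D 0)
    (cardPowDegreeIsAdmissible (Fq := F))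
  obtain ⟨u, I, hu, hI, hi⟩ := tors h5
  obtain ⟨H, hH⟩ := exists_DL hn hu hI
  refine le_trans (by simp) (card_le_card_of_injOn (s := range 5 ×ˢ range 5)
    (fun x => x.1 * H + x.2 * G) (fun x _ => mem_coe.2 (((hH.pow _).mul (h.pow _)).mem hD
      (mul_ne_zero (pow_ne_zero _ hu) (he.pow _).ne_zero))) fun x hx y hy e => ?_)
  have h1 := (hH.pow (x.1 + 4 * y.1)).mul (h.pow (x.2 + 4 * y.2))
  have h2 : ((x.1 + 4 * y.1 : ℕ) : F[X]) * H + (x.2 + 4 * y.2 : ℕ) * G = 0 := by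
    push_cast; linear_combination e + (y.1 * H + y.2 * G) * five' (F := F)
  obtain ⟨v, hv, -⟩ := (h2 ▸ h1).root hs
  have h3 := hi _ _ _ (he.pow _) hv
  rw [(CharP.cast_eq_zero_iff F[X] 5 _).2 h3, zero_mul, zero_add] at h2
  have h4 := dvd_five hG h2
  simp only [coe_product, coe_range, Set.mem_prod, Set.mem_Iio] at hx hy
  exact Prod.ext (by omega) (by omega)

end Pool.Agent.P.MP_16b5eb_nt.F5
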