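import Pool.Agent.P.MP_16b5eb_nt.F5.Base

/-! Sums over the admissible numerators and over greatest common divisors. -/

set_option autoImplicit false
set_option linter.unusedSectionVars false

namespace Pool.Agent.P.MP_16b5eb_nt.F5

open Polynomial Finset
open scoped Classical

variable {F : Type} [Field F] [Fintype F]

variable (F) in
/-- the admissible numerators -/
noncomputable def GG (g : ℕ) : Finset F[X] :=
  {G ∈ Lt F (g + 1) | G ≠ 0 ∧ G.coeff g ^ 5 = G.coeff g}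

theorem mem_GG {g : ℕ} {G : F[X]} :
    G ∈ GG F g ↔ G.natDegree ≤ g ∧ G ≠ 0 ∧ G.coeff g ^ 5 = G.coeff g := by
  rw [GG, mem_filter, mem_Lt_succ]

theorem GG_top {g : ℕ} {e : F[X]} (he : e ≠ 0) (S : Finset F[X])
    (h : ∀ G ∈ S, G ∈ GG F g ∧ e ∣ G ∧ G.natDegree = g) :
    (#S : ℝ) * rr F ^ (2 * e.natDegree) ≤ 4 * rr F ^ (2 * g) := by
  have h4 : #(nthRootsFinset 4 (1 : F)) ≤ 4 :=
    (Multiset.toFinset_card_le _).trans (card_nthRoots 4 1)
  have h1 : ∀ G ∈ S, G.coeff g ∈ nthRootsFinset 4 (1 : F) := fun G hG => by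
    obtain ⟨a, -, c⟩ := h G hG
    obtain ⟨-, a1, a2⟩ := mem_GG.1 a
    have : G.coeff g ≠ 0 := c ▸ leadingCoeff_ne_zero.2 a1
    exact (mem_nthRootsFinset (by norm_num) _).2 (mul_left_cancel₀ this (by linear_combination a2))
  rw [card_eq_sum_card_fiberwise h1, Nat.cast_sum, sum_mul]
  refine (sum_le_card_nsmul _ _ (rr F ^ (2 * g)) fun c _ => ?_).trans ?_
  · rcases (S.filter fun G => G.coeff g = c).eq_empty_or_nonempty with e0 | ⟨G, hG⟩
    · simp [e0, rr_pos.le]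
    obtain ⟨a, b, d⟩ := h G (mem_filter.1 hG).1
    refine mult he (d ▸ natDegree_le_of_dvd b (mem_GG.1 a).2.1) _ (fun x hx y hy => ?_)
      fun x hx y hy => dvd_sub (h x (mem_filter.1 hx).1).2.1 (h y (mem_filter.1 hy).1).2.1
    obtain ⟨x1, x2⟩ := mem_filter.1 hx
    obtain ⟨y1, y2⟩ := mem_filter.1 hy
    refine mem_Lt.2 ((degree_lt_iff_coeff_zero _ _).2 fun m hm => ?_)
    rcases hm.eq_or_lt with rfl | hm
    · rw [coeff_sub, x2, y2, sub_self]
    · rw [coeff_sub, coeff_eq_zero_of_natDegree_lt ((h x x1).2.2 ▸ hm),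
        coeff_eq_zero_of_natDegree_lt ((h y y1).2.2 ▸ hm), sub_self]
  · rw [nsmul_eq_mul]
    exact mul_le_mul_of_nonneg_right (by exact_mod_cast h4) (pow_pos rr_pos _).le

theorem card_GG (g : ℕ) : (#(GG F g) : ℝ) ≤ 5 * rr F ^ (2 * g) := by
  have h1 := GG_top (F := F) (g := g) one_ne_zero {G ∈ GG F g | G.natDegree = g}
    fun G hG => ⟨(mem_filter.1 hG).1, one_dvd _, (mem_filter.1 hG).2⟩
  have h2 := mult_Lt (F := F) one_ne_zero g {G ∈ GG F g | ¬ G.natDegree = g} fun G hG => by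
    obtain ⟨a, b⟩ := mem_filter.1 hG
    obtain ⟨a1, a2, -⟩ := mem_GG.1 a
    exact ⟨(mem_Lt' a2).2 (by omega), a2, one_dvd _⟩
  rw [← card_filter_add_card_filter_not (fun G => G.natDegree = g), Nat.cast_add]
  simp only [natDegree_one, mul_zero, pow_zero, mul_one] at h1 h2
  linarith

/-- a weight on numerators -/
noncomputable def wt (g : ℕ) (a b : ℝ) (G : F[X]) : ℝ :=
  if G.natDegree = g then a else b * (rr F)⁻¹ ^ G.natDegree

theorem wt_nonneg {g : ℕ} {a b : ℝ} (ha : 0 ≤ a) (hb : 0 ≤ b) (G : F[X]) : 0 ≤ wt g a b G := by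
  have := rr_pos (F := F)
  unfold wt; split_ifs <;> positivity

theorem sum_wt (h : 5 ≤ rr F) (g : ℕ) {a b : ℝ} (ha : 0 ≤ a) (hb : 0 ≤ b) {e : F[X]} (he : e ≠ 0) :
    (∑ G ∈ GG F g with e ∣ G, wt g a b G) * rr F ^ (2 * e.natDegree) ≤
      4 * a * rr F ^ (2 * g) + 5 / 4 * b * rr F ^ (g + 1) := by
  have r0 := rr_pos (F := F)
  simp only [wt]
  rw [sum_ite, sum_const, nsmul_eq_mul, add_mul, ← mul_sum]
  refine add_le_add ?_ ?_
  · have := mul_le_mul_of_nonneg_left (GG_top (g := g) he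
      {G ∈ {G ∈ GG F g | e ∣ G} | G.natDegree = g} fun G hG => by
        obtain ⟨x, y⟩ := mem_filter.1 hG
        exact ⟨(mem_filter.1 x).1, (mem_filter.1 x).2, y⟩) ha
    linarith
  · have h1 : ∀ G ∈ {G ∈ {G ∈ GG F g | e ∣ G} | ¬ G.natDegree = g}, G.natDegree ∈ range g :=
      fun G hG => by
        obtain ⟨x, y⟩ := mem_filter.1 hG
        have := (mem_GG.1 (mem_filter.1 x).1).1
        exact mem_range.2 (by omega)
    rw [mul_assoc, mul_comm (5 / 4) b, mul_assoc b, ← sum_fiberwise_of_maps_to h1, sum_mul]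
    refine mul_le_mul_of_nonneg_left ((sum_le_sum fun i _ => ?_).trans (geo' h (range g) (· + 2) _
      (fun _ _ _ _ z => by simpa using z) fun i hi => by have := mem_range.1 hi; omega)) hb
    rw [sum_congr rfl fun G hG => by rw [(mem_filter.1 hG).2], sum_const, nsmul_eq_mul,
      mul_right_comm]
    refine (mul_le_mul_of_nonneg_right (mult_Lt he (i + 1) _ fun G hG => ?_)
      (by positivity)).trans_eq ?_
    · obtain ⟨x, y⟩ := mem_filter.1 hG
      obtain ⟨x1, x2⟩ := mem_filter.1 (mem_filter.1 x).1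
      exact ⟨mem_Lt_succ.2 y.le, (mem_GG.1 x1).2.1, x2⟩
    · rw [inv_pow]; field_simp; ring

theorem fac2 {G : F[X]} (B : F[X]) {M : ℕ} (h0 : G ≠ 0) (hM : G.natDegree ≤ M) : ∃ x ∈ PT F M,
    x.1 * Nt x.2 ∣ B ∧ x.1 * Kt x.2 * Nt x.2 ∣ G ∧
      (gcd G (B ^ 5)).natDegree = (x.1 * Kt x.2 * Nt x.2).natDegree := by
  have h1 : gcd G (B ^ 5) ≠ 0 := fun z => h0 ((gcd_eq_zero_iff _ _).1 z).1
  have h2 : (gcd G (B ^ 5)).Monic := by rw [← _root_.normalize_gcd]; exact monic_normalize h1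
  obtain ⟨E, t, m, e1, ⟨f, rfl⟩, e2⟩ := fac h1 (gcd_dvd_right _ _)
  have e3 : gcd G (B ^ 5) = f * Kt t * Nt t := by rw [e1]; ring
  have d : f * Kt t * Nt t ∣ G := e3 ▸ gcd_dvd_left _ _
  refine ⟨(f, t), mem_product.2 ⟨mem_Mle.2 ⟨?_, ?_⟩, mem_Tu.2 fun i => mem_Mle.2 ⟨m i, ?_⟩⟩,
    by rwa [mul_comm], d, by rw [e3]⟩
  · rw [e3, mul_assoc] at h2
    exact ((Kt_monic m).mul (Nt_monic m)).of_mul_monic_right h2
  · exact (natDegree_le_of_dvd (((dvd_mul_right _ _).mul_right _).trans d) h0).trans hM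
  · exact (natDegree_le_of_dvd (((dvd_Nt t i).mul_left _).trans d) h0).trans hM

theorem PT_monic {M : ℕ} {x : F[X] × (Fin 4 → F[X])} (h : x ∈ PT F M) :
    x.1.Monic ∧ (Kt x.2).Monic ∧ (Nt x.2).Monic := by
  obtain ⟨h1, h2⟩ := mem_product.1 h
  have m := fun i => (mem_Mle.1 (mem_Tu.1 h2 i)).1
  exact ⟨(mem_Mle.1 h1).1, Kt_monic m, Nt_monic m⟩

/-- the mean of the square root of the norm of a greatest common divisor -/
theorem gcd_sum (h : 5 ≤ rr F) (g : ℕ) (w : F[X] → ℝ) (hw : ∀ G, 0 ≤ w G) (S : Finset F[X])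
    {a b : ℝ} (ha : ∀ e : F[X], e ≠ 0 → (∑ G ∈ GG F g with e ∣ G, w G) * rr F ^ (2 * e.natDegree) ≤ a)
    (hb : ∀ e : F[X], e ≠ 0 → (#{B ∈ S | e ∣ B} : ℝ) * rr F ^ (2 * e.natDegree) ≤ b) :
    ∑ G ∈ GG F g, ∑ B ∈ S, w G * rr F ^ (gcd G (B ^ 5)).natDegree ≤ (5 / 4) ^ 5 * (a * b) := by
  have r0 := rr_pos (F := F)
  have a0 : 0 ≤ a := le_trans (mul_nonneg (sum_nonneg fun G _ => hw G) (by positivity))
    (ha 1 one_ne_zero)
  have b0 : 0 ≤ b := le_trans (by positivity) (hb 1 one_ne_zero)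
  calc _ ≤ ∑ G ∈ GG F g, ∑ B ∈ S, ∑ x ∈ PT F g, (if x.1 * Kt x.2 * Nt x.2 ∣ G then w G else 0) *
        (if x.1 * Nt x.2 ∣ B then 1 else 0) * rr F ^ (x.1 * Kt x.2 * Nt x.2).natDegree := by
        refine sum_le_sum fun G hG => sum_le_sum fun B _ => ?_
        obtain ⟨x, hx, d1, d2, e⟩ := fac2 B (mem_GG.1 hG).2.1 (mem_GG.1 hG).1
        refine le_trans (le_of_eq ?_) (single_le_sum (fun y _ => ?_) hx)
        · rw [if_pos d1, if_pos d2, mul_one, e]
        · have := hw G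
          split_ifs <;> positivity
    _ = ∑ x ∈ PT F g, (∑ G ∈ GG F g with x.1 * Kt x.2 * Nt x.2 ∣ G, w G) *
        (#{B ∈ S | x.1 * Nt x.2 ∣ B} : ℝ) * rr F ^ (x.1 * Kt x.2 * Nt x.2).natDegree := by
        simp only [sum_filter, card_filter, Nat.cast_sum, Nat.cast_ite, Nat.cast_one,
          Nat.cast_zero, sum_mul_sum]
        simp only [sum_mul]
        exact (sum_congr rfl fun G _ => sum_comm).trans sum_comm
    _ ≤ ∑ x ∈ PT F g, (rr F)⁻¹ ^ (3 * x.1.natDegree +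
        ((Kt x.2).natDegree + 2 * (Nt x.2).natDegree)) * (a * b) := by
        refine sum_le_sum fun x hx => ?_
        obtain ⟨m1, m2, m3⟩ := PT_monic hx
        have h1 := mul_le_mul (ha _ ((m1.mul m2).mul m3).ne_zero) (hb _ (m1.mul m3).ne_zero)
          (by positivity) a0
        rw [(m1.mul m2).natDegree_mul m3, m1.natDegree_mul m2, m1.natDegree_mul m3] at h1
        rw [(m1.mul m2).natDegree_mul m3, m1.natDegree_mul m2, inv_pow, le_inv_mul_iff₀
          (by positivity)]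
        refine le_trans ?_ h1
        rw [mul_mul_mul_comm, ← pow_add, mul_comm, mul_assoc, ← pow_add]
        exact mul_le_mul_of_nonneg_left (pow_le_pow_right₀ (by linarith) (by omega))
          (mul_nonneg (sum_nonneg fun G _ => hw G) (by positivity))
    _ ≤ _ := by
        rw [← sum_mul]
        exact mul_le_mul_of_nonneg_right (zeta5 h g) (by positivity)

end Pool.Agent.P.MP_16b5eb_nt.F5
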