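import Pool.Agent.P.MP_16b5eb_nt.F5.Ker

/-! The total of the square roots of the sizes of the radicals. -/

set_option autoImplicit false
set_option linter.unusedSectionVars false

namespace Pool.Agent.P.MP_16b5eb_nt.F5

open Polynomial Finset
open scoped Classical

variable {F : Type} [Field F] [Fintype F]

theorem GG_mult (g : ℕ) {e : F[X]} (he : e ≠ 0) :
    (∑ G ∈ GG F g with e ∣ G, (1 : ℝ)) * rr F ^ (2 * e.natDegree) ≤ 5 * rr F ^ (2 * g) := by
  have h1 := GG_top (g := g) he {G ∈ {G ∈ GG F g | e ∣ G} | G.natDegree = g} fun G hG =>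
    ⟨(mem_filter.1 (mem_filter.1 hG).1).1, (mem_filter.1 (mem_filter.1 hG).1).2,
      (mem_filter.1 hG).2⟩
  have h2 := mult_Lt he g {G ∈ {G ∈ GG F g | e ∣ G} | ¬ G.natDegree = g} fun G hG => by
    obtain ⟨a, b⟩ := mem_filter.1 hG
    obtain ⟨a1, a2, -⟩ := mem_GG.1 (mem_filter.1 a).1
    exact ⟨(mem_Lt' a2).2 (by omega), a2, (mem_filter.1 a).2⟩
  rw [sum_const, nsmul_one, ← card_filter_add_card_filter_not (fun G => G.natDegree = g),
    Nat.cast_add, add_mul]
  linarith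

section typ
variable {g b : ℕ} {S : Finset F[X]} {b1 b2 p1 p2 : F[X] → F[X]} (h : 5 ≤ rr F) (hb : b ≤ g)
  (hS : ∀ L ∈ S, RB g L (b1 L) (b2 L) (p1 L) (p2 L) ∧ (b1 L).natDegree = b)
include h hb hS

theorem typB : ∑ G ∈ GG F g, ∑ L ∈ S, √(#(KB g G (b1 L)) : ℝ) ≤
    (5 / 4) ^ 5 * 5 * rr F ^ (3 * g + 2) * rr F ^ (g - b) := by
  have r0 := rr_pos (F := F)
  have h1 := gcd_sum h g (fun _ => 1) (fun _ => zero_le_one) (Mo F b) (fun e he => GG_mult g he)
    fun e he => mult_Mo he b _ fun a ha => mem_filter.1 ha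
  calc _ ≤ ∑ G ∈ GG F g, rr F ^ (2 * g + 2) * (rr F)⁻¹ ^ (5 * b) * (rr F ^ (2 * b) *
        ∑ B ∈ Mo F b, 1 * rr F ^ (gcd G (B ^ 5)).natDegree) := by
        refine sum_le_sum fun G _ => le_trans ?_ (mul_le_mul_of_nonneg_left (sum_fib S _ b1 _
          (fun _ => by positivity) (fun L => b1_mem hS) fun B _ => fib1 hS B) (by positivity))
        rw [mul_sum]
        refine sum_le_sum fun L hL => (KB_le g G (hS L hL).1.m1.ne_zero).trans_eq ?_
        rw [(hS L hL).2]; ring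
    _ ≤ rr F ^ (2 * g + 2) * (rr F)⁻¹ ^ (5 * b) * (rr F ^ (2 * b) *
        ((5 / 4) ^ 5 * (5 * rr F ^ (2 * g) * rr F ^ (2 * b)))) := by
        rw [← mul_sum, ← mul_sum]; gcongr
    _ = _ := by
        obtain ⟨a, rfl⟩ := Nat.exists_eq_add_of_le hb
        rw [Nat.add_sub_cancel_left, inv_pow]; field_simp; ring

theorem typA : ∑ G ∈ GG F g, ∑ L ∈ S, √(#(KA g (g - b) G (b2 L)) : ℝ) ≤
    (5 / 4) ^ 5 * (4 + 5 / 4 * rr F) * rr F ^ (3 * g) * rr F ^ b := by
  have r0 := rr_pos (F := F)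
  have w0 := wt_nonneg (F := F) (g := g) (a := (rr F)⁻¹ ^ g) (by positivity) zero_le_one
  have h1 := gcd_sum h g _ w0 ((Lt F (g - b + 1)).erase 0)
    (fun e he => sum_wt h g (by positivity) zero_le_one he)
    fun e he => mult_Lt he (g - b + 1) _ fun a ha => ⟨(mem_erase.1 (mem_filter.1 ha).1).2,
      (mem_erase.1 (mem_filter.1 ha).1).1, (mem_filter.1 ha).2⟩
  calc _ ≤ ∑ G ∈ GG F g, rr F ^ (3 * g) * (rr F)⁻¹ ^ (5 * (g - b) + 2) * (rr F ^ (2 * (g - b)) *
        ∑ B ∈ (Lt F (g - b + 1)).erase 0,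
          wt g ((rr F)⁻¹ ^ g) 1 G * rr F ^ (gcd G (B ^ 5)).natDegree) := by
        refine sum_le_sum fun G hG => le_trans ?_ (mul_le_mul_of_nonneg_left (sum_fib S _ b2 _
          (fun _ => mul_nonneg (w0 G) (by positivity)) (fun L => b2_mem hS) fun B _ => fib2 hS B)
          (by positivity))
        rw [mul_sum]
        refine sum_le_sum fun L hL => (KA_le g _ (mem_GG.1 hG).2.1 _).trans_eq ?_
        unfold wt
        split_ifs with e
        · rw [e]; ring
        · ring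
    _ ≤ rr F ^ (3 * g) * (rr F)⁻¹ ^ (5 * (g - b) + 2) * (rr F ^ (2 * (g - b)) *
        ((5 / 4) ^ 5 * ((4 * (rr F)⁻¹ ^ g * rr F ^ (2 * g) + 5 / 4 * 1 * rr F ^ (g + 1)) *
          rr F ^ (2 * (g - b + 1))))) := by
        rw [← mul_sum, ← mul_sum]; gcongr
    _ = _ := by
        obtain ⟨a, rfl⟩ := Nat.exists_eq_add_of_le hb
        rw [Nat.add_sub_cancel_left, inv_pow, inv_pow]; field_simp; ring

omit h in
theorem typC1 [CharP F 5] {G : F[X]} (hG : G ∈ GG F g) : ∑ L ∈ S, √(#(KC g G (b1 L) (b2 L)) : ℝ) ≤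
    √(#S : ℝ) * ∑ x ∈ PT F g with x.1 * Kt x.2 * Nt x.2 ∣ G,
      rr F ^ (ga g G + g + 1 + (Kt x.2).natDegree) * (rr F)⁻¹ ^ (x.1.natDegree + G.natDegree) := by
  have r0 := rr_pos (F := F)
  have h1 : ∑ L ∈ S, (#(KC g G (b1 L) (b2 L)) : ℝ) ≤
      ∑ x ∈ PT F g with x.1 * Kt x.2 * Nt x.2 ∣ G, (rr F ^ (ga g G + g + 1 + (Kt x.2).natDegree) *
        (rr F)⁻¹ ^ (x.1.natDegree + G.natDegree)) ^ 2 := by
    calc _ = ∑ s ∈ SB g b G, (#{L ∈ S | G ∣ s.1 * b1 L ^ 5 + s.2 * b2 L ^ 5} : ℝ) := by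
          rw [sum_congr rfl fun L hL => by rw [KC, (hS L hL).2]]
          simp only [card_filter, Nat.cast_sum]
          exact sum_comm
      _ ≤ ∑ s ∈ SB g b G, ∑ d ∈ Mle F g, (if d ∣ s.1 ∧ d ∣ s.2 then 1 else 0) *
          ∑ t ∈ Tu F g with d * Kt t * Nt t ∣ G, rr F ^ (2 * (g + 1 + d.natDegree +
            (Kt t).natDegree)) / rr F ^ (2 * G.natDegree) := by
          refine sum_le_sum fun s _ => ?_
          obtain ⟨d, d0, d1, d2, d3⟩ := cnt hS hG s.1 s.2
          refine d3.trans (le_trans (le_of_eq ?_) (single_le_sum (fun y _ => ?_) d0))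
          · rw [if_pos ⟨d1, d2⟩, one_mul]
          · split_ifs <;> positivity
      _ ≤ _ := by
          rw [sum_comm, PT, sum_filter, sum_product]
          refine sum_le_sum fun d hd => ?_
          rw [← sum_mul, ← sum_filter, ← sum_filter, sum_const, nsmul_one, mul_sum]
          refine sum_le_sum fun t _ => ?_
          have h2 := box_le hb G (mem_Mle.1 hd).1.ne_zero
          rw [← le_div_iff₀ (by positivity)] at h2
          refine (mul_le_mul_of_nonneg_right h2 (by positivity)).trans_eq ?_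
          rw [inv_pow]; field_simp; ring
  have h2 := Real.sum_sqrt_mul_sqrt_le S (f := fun _ => 1)
    (g := fun L => (#(KC g G (b1 L) (b2 L)) : ℝ)) (fun _ => zero_le_one) fun _ => by positivity
  simp only [Real.sqrt_one, one_mul, sum_const, nsmul_one] at h2
  refine h2.trans (mul_le_mul_of_nonneg_left (Real.sqrt_le_iff.2 ⟨by positivity, h1.trans
    (sum_sq_le_sq_sum_of_nonneg fun _ _ => by positivity)⟩) (by positivity))

theorem typC [CharP F 5] (hg : 1 ≤ g) :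
    ∑ G ∈ GG F g, ∑ L ∈ S, √(#(KC g G (b1 L) (b2 L)) : ℝ) ≤
      (5 / 4) ^ 5 * (21 / 4) * rr F ^ (3 * g + 1) * rr F ^ min (2 * b) (2 * (g - b) + 1) := by
  have r0 := rr_pos (F := F)
  refine (sum_le_sum fun G hG => typC1 hb hS hG).trans ?_
  rw [← mul_sum, mul_comm]
  refine mul_le_mul ?_ (card_typ hS) (by positivity) (by positivity)
  calc _ = ∑ x ∈ PT F g, (∑ G ∈ GG F g with x.1 * Kt x.2 * Nt x.2 ∣ G,
        wt g 1 (rr F ^ (g - 1)) G) * (rr F ^ (g + 1 + (Kt x.2).natDegree) *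
          (rr F)⁻¹ ^ x.1.natDegree) := by
        simp only [sum_filter, sum_mul]
        rw [sum_comm]
        refine sum_congr rfl fun x _ => sum_congr rfl fun G _ => ?_
        unfold wt ga
        split_ifs with e1 e2
        · rw [e2, inv_pow, inv_pow]; field_simp; ring
        · ring
        · ring
    _ ≤ ∑ x ∈ PT F g, (rr F)⁻¹ ^ (3 * x.1.natDegree + ((Kt x.2).natDegree +
        2 * (Nt x.2).natDegree)) * (21 / 4 * rr F ^ (3 * g + 1)) := by
        refine sum_le_sum fun x hx => ?_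
        obtain ⟨m1, m2, m3⟩ := PT_monic hx
        have h1 := sum_wt h g zero_le_one (pow_pos r0 (g - 1)).le ((m1.mul m2).mul m3).ne_zero
        rw [(m1.mul m2).natDegree_mul m3, m1.natDegree_mul m2, ← le_div_iff₀ (by positivity)] at h1
        refine (mul_le_mul_of_nonneg_right h1 (by positivity)).trans_eq ?_
        obtain ⟨a, rfl⟩ := Nat.exists_eq_add_of_le' hg
        rw [Nat.add_sub_cancel, inv_pow, inv_pow]; field_simp; ring
    _ ≤ _ := by
        rw [← sum_mul, mul_assoc]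
        exact mul_le_mul_of_nonneg_right (zeta5 h g) (by positivity)

end typ

theorem total [CharP F 5] (h : 5 ≤ rr F) {g : ℕ} (hg : 1 ≤ g) :
    ∑ G ∈ GG F g, ∑ L ∈ (Lt F g).erase 0, √(#(Ker g G L) : ℝ) ≤ 48 * rr F ^ (4 * g + 1) := by
  have r0 := rr_pos (F := F)
  choose! b1 b2 p1 p2 hR using fun L (hL : L ∈ (Lt F g).erase 0) =>
    exists_RB (mem_erase.1 hL).2 (mem_erase.1 hL).1
  have hS : ∀ b, ∀ L ∈ {L ∈ (Lt F g).erase 0 | (b1 L).natDegree = b},
      RB g L (b1 L) (b2 L) (p1 L) (p2 L) ∧ (b1 L).natDegree = b := fun b L hL =>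
    ⟨hR L (mem_filter.1 hL).1, (mem_filter.1 hL).2⟩
  have hm : ∀ L ∈ (Lt F g).erase 0, (b1 L).natDegree ∈ Icc 1 g := fun L hL =>
    mem_Icc.2 ⟨(hR L hL).pos, (hR L hL).le⟩
  have s1 := geo' h (Icc 1 g) (g - ·) (g - 1) (fun i hi j hj e => by
    have := mem_Icc.1 hi; have := mem_Icc.1 hj; simp only at e; omega)
    fun i hi => by have := mem_Icc.1 hi; omega
  have s2 := geo' h (Icc 1 g) id g (fun _ _ _ _ e => e) fun i hi => (mem_Icc.1 hi).2
  have s3 := geo' h (Icc 1 g) (fun b => min (2 * b) (2 * (g - b) + 1)) g (fun i hi j hj e => by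
    have := mem_Icc.1 hi; have := mem_Icc.1 hj; simp only at e; omega)
    fun i hi => by have := mem_Icc.1 hi; omega
  have s0 : ∑ G ∈ GG F g, ∑ L ∈ (Lt F g).erase 0, (1 : ℝ) ≤ 5 * rr F ^ (2 * g) * rr F ^ (2 * g) := by
    rw [sum_const, sum_const, nsmul_one, nsmul_eq_mul]
    refine mul_le_mul (card_GG g) ?_ (by positivity) (by positivity)
    rw [← q_pow, ← Nat.cast_pow, ← card_Lt, Nat.cast_le]
    exact card_erase_le
  calc _ ≤ ∑ G ∈ GG F g, ∑ L ∈ (Lt F g).erase 0, (1 + (√(#(KB g G (b1 L)) : ℝ) +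
        √(#(KA g (g - (b1 L).natDegree) G (b2 L)) : ℝ) + √(#(KC g G (b1 L) (b2 L)) : ℝ))) := by
        refine sum_le_sum fun G hG => sum_le_sum fun L hL => Real.sqrt_le_iff.2 ⟨by positivity, ?_⟩
        have h1 : (#(Ker g G L) : ℝ) ≤ _ := Nat.cast_le.2 (ker_le hg hG (hR L hL))
        push_cast at h1
        have a := Real.sq_sqrt (Nat.cast_nonneg (α := ℝ) #(KB g G (b1 L)))
        have b := Real.sq_sqrt (Nat.cast_nonneg (α := ℝ) #(KA g (g - (b1 L).natDegree) G (b2 L)))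
        have c := Real.sq_sqrt (Nat.cast_nonneg (α := ℝ) #(KC g G (b1 L) (b2 L)))
        have a0 := Real.sqrt_nonneg (#(KB g G (b1 L)) : ℝ)
        have b0 := Real.sqrt_nonneg (#(KA g (g - (b1 L).natDegree) G (b2 L)) : ℝ)
        have c0 := Real.sqrt_nonneg (#(KC g G (b1 L) (b2 L)) : ℝ)
        nlinarith [mul_nonneg a0 b0, mul_nonneg a0 c0, mul_nonneg b0 c0]
    _ ≤ 5 * rr F ^ (2 * g) * rr F ^ (2 * g) + ∑ b ∈ Icc 1 g,
        ((5 / 4) ^ 5 * 5 * rr F ^ (3 * g + 2) * rr F ^ (g - b) +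
          (5 / 4) ^ 5 * (4 + 5 / 4 * rr F) * rr F ^ (3 * g) * rr F ^ b +
          (5 / 4) ^ 5 * (21 / 4) * rr F ^ (3 * g + 1) * rr F ^ min (2 * b) (2 * (g - b) + 1)) := by
        simp only [sum_add_distrib (f := fun _ => (1 : ℝ))]
        rw [sum_add_distrib]
        refine add_le_add s0 ?_
        rw [sum_congr rfl fun G _ => (sum_fiberwise_of_maps_to hm _).symm, sum_comm]
        refine sum_le_sum fun b hb => ?_
        have hb' := (mem_Icc.1 hb).2
        refine le_trans (le_of_eq ?_) (add_le_add (add_le_add (typB h hb' (hS b))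
          (typA h hb' (hS b))) (typC h hb' (hS b) hg))
        simp only [← sum_add_distrib]
        exact sum_congr rfl fun G _ => sum_congr rfl fun L hL => by rw [(mem_filter.1 hL).2]
    _ ≤ 5 * rr F ^ (2 * g) * rr F ^ (2 * g) +
        ((5 / 4) ^ 5 * 5 * rr F ^ (3 * g + 2) * (5 / 4 * rr F ^ (g - 1)) +
          (5 / 4) ^ 5 * (4 + 5 / 4 * rr F) * rr F ^ (3 * g) * (5 / 4 * rr F ^ g) +
          (5 / 4) ^ 5 * (21 / 4) * rr F ^ (3 * g + 1) * (5 / 4 * rr F ^ g)) := by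
        rw [sum_add_distrib, sum_add_distrib, ← mul_sum, ← mul_sum, ← mul_sum]
        gcongr
        exact s2
    _ ≤ _ := by
        obtain ⟨a, rfl⟩ := Nat.exists_eq_add_of_le' hg
        have := mul_le_mul_of_nonneg_left h (pow_pos r0 (4 * a + 4)).le
        have := pow_pos r0 (4 * a + 4)
        rw [Nat.add_sub_cancel]
        ring_nf at *
        linarith

end Pool.Agent.P.MP_16b5eb_nt.F5
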